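import Pool.Agent.TH920.QI.Image

/-! Exponents above `1/4`: conclusion. -/

set_option autoImplicit false

open Finset
open scoped Pointwise

namespace Pool.Agent.TH920.QI

open Pool.Agent.W27.SD Pool.Agent.W27.BG

/-- from the bound `p^(-3τ) |A|` for all kernels to the two conclusions -/
theorem conclude {p : ℕ} [Fact p.Prime] (τ : ℝ) (hτ : 0 < τ) (h2p : 2 < (p : ℝ) ^ τ)
    (χ : DirichletCharacter ℂ p) (A : Finset (ZMod p)) (hA : A.Nonempty)
    (hM : ∀ η : ZMod p → ℂ, (∀ x, ‖η x‖ ≤ 1) →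
        ∀ f g : ZMod p → ℂ, ‖∑ a ∈ A, ∑ b ∈ A, f a * g b * (χ (a - b) * η (a + b))‖
          ≤ (p : ℝ) ^ (-(3 * τ)) * A.card *
            (Real.sqrt (∑ a ∈ A, ‖f a‖ ^ 2) * Real.sqrt (∑ b ∈ A, ‖g b‖ ^ 2))) :
    (∀ f g h : ZMod p → ℂ, (∀ s, ‖h s‖ ≤ 1) →
      ‖∑ a ∈ A, ∑ b ∈ A, f a * g b * h (a + b) * χ (a - b)‖
        ≤ (A.card : ℝ) ^ (1 - τ) *
          (Real.sqrt (∑ a ∈ A, ‖f a‖ ^ 2) * Real.sqrt (∑ b ∈ A, ‖g b‖ ^ 2))) ∧
    (∀ A' : Finset (ZMod p), A' ⊆ A → (A.card : ℝ) ≤ (p : ℝ) ^ τ * A'.card →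
      ∀ u v α β γ ε : ZMod p, (u ≠ 0 ∨ v ≠ 0) → α * ε - β * γ ≠ 0 →
        (∀ a ∈ A', γ * (u * a ^ 2 + v * a) + ε ≠ 0) → ∀ C : Finset (ZMod p),
        C = (A'.image fun a => (α * (u * a ^ 2 + v * a) + β) * (γ * (u * a ^ 2 + v * a) + ε)⁻¹) →
        ‖∑ x ∈ C, ∑ y ∈ C, χ (x - y)‖ < (C.card : ℝ) ^ (2 - τ)) := by
  classical
  have hp1' : (1 : ℝ) < p := by exact_mod_cast (Fact.out : p.Prime).one_lt
  have hp1 : (1 : ℝ) ≤ p := hp1'.le
  have hp0 : (0 : ℝ) < p := by linarith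
  have hA0 : (0 : ℝ) < A.card := by exact_mod_cast hA.card_pos
  have hAp : (A.card : ℝ) ≤ p := by
    have h := Finset.card_le_univ A
    rw [ZMod.card] at h
    exact_mod_cast h
  refine ⟨?_, ?_⟩
  · intro f g h hh
    have h1 := hM h hh f g
    have e1 : ∑ a ∈ A, ∑ b ∈ A, f a * g b * h (a + b) * χ (a - b)
        = ∑ a ∈ A, ∑ b ∈ A, f a * g b * (χ (a - b) * h (a + b)) := by
      refine Finset.sum_congr rfl fun a _ => Finset.sum_congr rfl fun b _ => ?_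
      ring
    rw [e1]
    refine h1.trans (mul_le_mul_of_nonneg_right ?_ (by positivity))
    calc (p : ℝ) ^ (-(3 * τ)) * A.card ≤ (p : ℝ) ^ (-τ) * A.card :=
          mul_le_mul_of_nonneg_right
            (Real.rpow_le_rpow_of_exponent_le hp1 (by linarith)) hA0.le
      _ ≤ (A.card : ℝ) ^ (-τ) * A.card :=
          mul_le_mul_of_nonneg_right
            (Real.rpow_le_rpow_of_nonpos hA0 hAp (by linarith)) hA0.le
      _ = (A.card : ℝ) ^ (1 - τ) := by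
          rw [← Real.rpow_add_one hA0.ne']
          congr 1
          ring
  · intro A' hA' hAA' u v α β γ ε huv hdet hden C hC
    obtain ⟨hc1, hc2⟩ := image_sum χ A A' hA' ((p : ℝ) ^ (-(3 * τ)) * A.card) (by positivity) hM
      u v α β γ ε huv hdet hden C (by rw [hC]; simp only [div_eq_mul_inv])
    have hA'0 : (0 : ℝ) < A'.card := by
      by_contra hcon
      have h0 : (A'.card : ℝ) = 0 := le_antisymm (not_lt.1 hcon) (Nat.cast_nonneg _)
      rw [h0, mul_zero] at hAA'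
      linarith
    have hc1R : (A'.card : ℝ) ≤ 2 * C.card := by exact_mod_cast hc1
    have hC0 : (0 : ℝ) < C.card := by linarith
    have hCp : (C.card : ℝ) ≤ p := by
      have h := Finset.card_le_univ C
      rw [ZMod.card] at h
      exact_mod_cast h
    refine lt_of_le_of_lt hc2 ?_
    have hpτ : (0 : ℝ) < (p : ℝ) ^ τ := by positivity
    calc (p : ℝ) ^ (-(3 * τ)) * A.card * C.card
        ≤ (p : ℝ) ^ (-(3 * τ)) * ((p : ℝ) ^ τ * (2 * C.card)) * C.card := by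
          refine mul_le_mul_of_nonneg_right (mul_le_mul_of_nonneg_left ?_ (by positivity)) hC0.le
          exact hAA'.trans (mul_le_mul_of_nonneg_left hc1R hpτ.le)
      _ = 2 * ((p : ℝ) ^ (-(2 * τ)) * (C.card * C.card)) := by
          have e1 : (p : ℝ) ^ (-(2 * τ)) = (p : ℝ) ^ (-(3 * τ)) * (p : ℝ) ^ τ := by
            rw [← Real.rpow_add hp0]
            congr 1
            ring
          rw [e1]
          ring
      _ < (p : ℝ) ^ τ * ((p : ℝ) ^ (-(2 * τ)) * (C.card * C.card)) :=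
          mul_lt_mul_of_pos_right h2p (by positivity)
      _ = (p : ℝ) ^ (-τ) * (C.card * C.card) := by
          rw [← mul_assoc, ← Real.rpow_add hp0]
          congr 2
          ring
      _ ≤ (C.card : ℝ) ^ (-τ) * (C.card * C.card) :=
          mul_le_mul_of_nonneg_right (Real.rpow_le_rpow_of_nonpos hC0 hCp (by linarith))
            (by positivity)
      _ = (C.card : ℝ) ^ (2 - τ) := by
          rw [← mul_assoc, ← Real.rpow_add_one hC0.ne', ← Real.rpow_add_one hC0.ne']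
          congr 1
          ring

theorem quarter_images (δ K : ℝ) (hδ : 1 / 4 < δ) :
    ∃ τ : ℝ, 0 < τ ∧ ∃ P : ℕ, ∀ p : ℕ, p.Prime → P ≤ p →
      ∀ χ : DirichletCharacter ℂ p, χ ≠ 1 → ∀ A B : Finset (ZMod p), A.Nonempty →
        (p : ℝ) ^ δ < B.card → ((B + B).card : ℝ) ≤ K * B.card →
        ((A + B).card : ℝ) ≤ (p : ℝ) ^ τ * A.card →
        (∀ f g h : ZMod p → ℂ, (∀ s, ‖h s‖ ≤ 1) →
          ‖∑ a ∈ A, ∑ b ∈ A, f a * g b * h (a + b) * χ (a - b)‖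
            ≤ (A.card : ℝ) ^ (1 - τ) *
              (Real.sqrt (∑ a ∈ A, ‖f a‖ ^ 2) * Real.sqrt (∑ b ∈ A, ‖g b‖ ^ 2))) ∧
        (∀ A' : Finset (ZMod p), A' ⊆ A → (A.card : ℝ) ≤ (p : ℝ) ^ τ * A'.card →
          ∀ u v α β γ ε : ZMod p, (u ≠ 0 ∨ v ≠ 0) → α * ε - β * γ ≠ 0 →
            (∀ a ∈ A', γ * (u * a ^ 2 + v * a) + ε ≠ 0) → ∀ C : Finset (ZMod p),
            C = (A'.image fun a =>
              (α * (u * a ^ 2 + v * a) + β) * (γ * (u * a ^ 2 + v * a) + ε)⁻¹) →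
            ‖∑ x ∈ C, ∑ y ∈ C, χ (x - y)‖ < (C.card : ℝ) ^ (2 - τ)) := by
  obtain ⟨τ, hτ, P, hP⟩ := quarterK δ K hδ
  obtain ⟨P', hP'⟩ := large_rpow τ 2 hτ
  refine ⟨τ, hτ, P + P', ?_⟩
  intro p hpp hp χ hχ A B hA hB hBK hAB
  have : Fact p.Prime := ⟨hpp⟩
  exact conclude τ hτ (hP' p (by omega)) χ A hA
    (fun η hη f g => hP p hpp (by omega) χ hχ A B hA hB hBK hAB η hη f g)

end Pool.Agent.TH920.QI
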