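import Pool.Agent.TH920.QI.Quarter

/-! Exponents up to `1/4`: all characters but few. -/

set_option autoImplicit false

open Finset
open scoped Pointwise

namespace Pool.Agent.TH920.QI

open Pool.Agent.W27.SD Pool.Agent.W27.BG Pool.Agent.H471R4.BW

variable {p : ℕ} [Fact p.Prime]

theorem pd_eq (χ : DirichletCharacter ℂ p) (h : ℤ) (x : ZMod p) (d : ℤ) :
    pd χ h x d = χ ((x + (d : ZMod p)) * (x + ((d + 2 * h : ℤ) : ZMod p))⁻¹) := by
  unfold pd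
  rw [map_mul]
  congr 1
  rw [← MulChar.inv_apply', ← MulChar.star_eq_inv]
  exact (MulChar.star_apply χ (x + ((d + 2 * h : ℤ) : ZMod p))).symm

/-- shifts for which the two products agree -/
theorem count3 (k L : ℕ) (hL : 6 * L ≤ p) (h : ℤ) (hh : |h| < L) (h0 : h ≠ 0)
    (b c : Fin k → ℤ) (hb : ∀ i, |b i| < L) (hc : ∀ i, |c i| < L) (l : Fin (k + k))
    (hl : ∀ m, m ≠ l → Fin.append b c l - Fin.append b c m ∉ E3 h) :
    (univ.filter (fun t : ZMod p =>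
      ∏ i, ((t + (b i : ZMod p)) * (t + ((b i + 2 * h : ℤ) : ZMod p))⁻¹) =
        ∏ i, ((t + (c i : ZMod p)) * (t + ((c i + 2 * h : ℤ) : ZMod p))⁻¹) ∧
      ∏ i, ((t + (b i : ZMod p)) * (t + ((b i + 2 * h : ℤ) : ZMod p))⁻¹) ≠ 0)).card ≤ 2 * k := by
  classical
  set D := Fin.append b c with hD
  have hDb : ∀ i, |D i| < L := by
    intro i
    refine Fin.addCases (fun j => ?_) (fun j => ?_) i
    · rw [hD, Fin.append_left]; exact hb j
    · rw [hD, Fin.append_right]; exact hc j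
  have hU := uniq_of_isolated (p := p) k L hL h hh h0 D hDb l hl
  have b1 : ∀ i : Fin k, Bi k h D (Fin.castAdd k i) = b i := by
    intro i
    unfold Bi
    rw [hD, Fin.append_left, if_pos (by simp)]
  have b2 : ∀ i : Fin k, Bi k h D (Fin.natAdd k i) = c i + 2 * h := by
    intro i
    unfold Bi
    rw [hD, Fin.append_right, if_neg (by simp)]
  have c1 : ∀ i : Fin k, Ci k h D (Fin.castAdd k i) = b i + 2 * h := by
    intro i
    unfold Ci
    rw [hD, Fin.append_left, if_pos (by simp)]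
  have c2 : ∀ i : Fin k, Ci k h D (Fin.natAdd k i) = c i := by
    intro i
    unfold Ci
    rw [hD, Fin.append_right, if_neg (by simp)]
  set x : Fin (k + k) → ZMod p := fun i => ((Bi k h D i : ℤ) : ZMod p) with hx
  set y : Fin (k + k) → ZMod p := fun i => ((Ci k h D i : ℤ) : ZMod p) with hy
  have hsub : (univ.filter (fun t : ZMod p =>
      ∏ i, ((t + (b i : ZMod p)) * (t + ((b i + 2 * h : ℤ) : ZMod p))⁻¹) =
        ∏ i, ((t + (c i : ZMod p)) * (t + ((c i + 2 * h : ℤ) : ZMod p))⁻¹) ∧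
      ∏ i, ((t + (b i : ZMod p)) * (t + ((b i + 2 * h : ℤ) : ZMod p))⁻¹) ≠ 0)) ⊆
      univ.filter (fun t : ZMod p => (∏ i, (t + x i) = ∏ i, (t + y i)) ∧ ∏ i, (t + x i) ≠ 0) := by
    intro t ht
    rw [Finset.mem_filter] at ht ⊢
    refine ⟨mem_univ _, ?_⟩
    obtain ⟨-, h1, h2⟩ := ht
    have h3 := h2
    rw [h1] at h3
    rw [Finset.prod_mul_distrib, Finset.prod_inv_distrib] at h1 h2 h3
    rw [Finset.prod_mul_distrib, Finset.prod_inv_distrib] at h1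
    have u1 := left_ne_zero_of_mul h2
    have u2 : (∏ i : Fin k, (t + ((b i + 2 * h : ℤ) : ZMod p))) ≠ 0 :=
      fun h6 => right_ne_zero_of_mul h2 (by rw [h6, inv_zero])
    have u3 := left_ne_zero_of_mul h3
    have u4 : (∏ i : Fin k, (t + ((c i + 2 * h : ℤ) : ZMod p))) ≠ 0 :=
      fun h6 => right_ne_zero_of_mul h3 (by rw [h6, inv_zero])
    have ex : ∏ i, (t + x i) = (∏ i : Fin k, (t + (b i : ZMod p))) *
        ∏ i : Fin k, (t + ((c i + 2 * h : ℤ) : ZMod p)) := by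
      rw [Fin.prod_univ_add]
      simp only [hx, b1, b2]
    have ey : ∏ i, (t + y i) = (∏ i : Fin k, (t + ((b i + 2 * h : ℤ) : ZMod p))) *
        ∏ i : Fin k, (t + (c i : ZMod p)) := by
      rw [Fin.prod_univ_add]
      simp only [hy, c1, c2]
    rw [ex, ey]
    refine ⟨?_, mul_ne_zero u1 u4⟩
    field_simp at h1
    linear_combination h1
  refine (Finset.card_le_card hsub).trans ?_
  have e2 : 2 * k = k + k := by ring
  rw [e2]
  rcases count_shift (k + k) x y with h5 | h5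
  · exact h5
  · have hset : (univ.filter (fun t : ZMod p => (∏ i, (t + x i) = ∏ i, (t + y i)) ∧
        ∏ i, (t + x i) ≠ 0)) =
        univ.filter (fun t : ZMod p => (∏ i, (t + y i) = ∏ i, (t + x i)) ∧
        ∏ i, (t + y i) ≠ 0) := by
      refine Finset.filter_congr fun t _ => ?_
      constructor
      · rintro ⟨h6, h7⟩
        exact ⟨h6.symm, h6 ▸ h7⟩
      · rintro ⟨h6, h7⟩
        exact ⟨h6.symm, h6 ▸ h7⟩
    rcases count_shift (k + k) y x with h6 | h6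
    · rw [hset]
      exact h6
    · exfalso
      obtain ⟨v, hv⟩ := hU
      simp only at hv
      rcases Nat.eq_zero_or_pos (univ.filter fun i : Fin (k + k) =>
        (((Bi k h D i : ℤ) : ZMod p)).val = v).card with h7 | h7
      · have h8 : 0 < (univ.filter fun i : Fin (k + k) =>
            (((Ci k h D i : ℤ) : ZMod p)).val = v).card := by omega
        obtain ⟨i, hi⟩ := Finset.card_pos.1 h8
        rw [Finset.mem_filter] at hi
        obtain ⟨j, -, hj⟩ := Finset.mem_image.1 (h5 i)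
        rw [Finset.card_eq_zero, Finset.filter_eq_empty_iff] at h7
        apply h7 (mem_univ j)
        rw [← hi.2]
        simp only [hx, hy] at hj
        rw [hj]
      · have h8 : (univ.filter fun i : Fin (k + k) =>
            (((Ci k h D i : ℤ) : ZMod p)).val = v).card = 0 := by omega
        obtain ⟨i, hi⟩ := Finset.card_pos.1 h7
        rw [Finset.mem_filter] at hi
        obtain ⟨j, -, hj⟩ := Finset.mem_image.1 (h6 i)
        rw [Finset.card_eq_zero, Finset.filter_eq_empty_iff] at h8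
        apply h8 (mem_univ j)
        rw [← hi.2]
        simp only [hx, hy] at hj
        rw [hj]

/-- the moment over all characters and all shifts -/
theorem mom3_all (k L : ℕ) (hL1 : 1 ≤ L) (hL : 6 * L ≤ p)
    (h : ℤ) (hh : |h| < L) (h0 : h ≠ 0) (w : ℤ → ℂ) (hw : ∀ d, ‖w d‖ ≤ 1) :
    ∑ x : ZMod p, ∑ χ : DirichletCharacter ℂ p,
      ‖∑ d ∈ Finset.Ioo (-(L : ℤ)) L, w d * pd χ h x d‖ ^ (2 * k) ≤
      (p : ℝ) * (((12 * k : ℕ) : ℝ) ^ (2 * k) * (2 * L : ℝ) ^ k * p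
        + (2 * k) * (2 * L : ℝ) ^ (2 * k)) := by
  classical
  set V := Finset.Ioo (-(L : ℤ)) L with hV
  have hVc : V.card ≤ 2 * L := by rw [hV, Int.card_Ioo]; omega
  set Pi := Fintype.piFinset (fun _ : Fin k => V) with hPi
  have hPic : Pi.card ≤ (2 * L) ^ k := by
    rw [hPi, Fintype.card_piFinset]
    simp only [Finset.prod_const, Finset.card_univ, Fintype.card_fin]
    exact Nat.pow_le_pow_left hVc _
  have h1 : ∀ x : ZMod p, ∑ χ : DirichletCharacter ℂ p, ‖∑ d ∈ V, w d * pd χ h x d‖ ^ (2 * k)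
      ≤ (p : ℝ) * ((Pi ×ˢ Pi).filter (fun q =>
        ∏ i, ((x + (q.1 i : ZMod p)) * (x + ((q.1 i + 2 * h : ℤ) : ZMod p))⁻¹) =
        ∏ i, ((x + (q.2 i : ZMod p)) * (x + ((q.2 i + 2 * h : ℤ) : ZMod p))⁻¹) ∧
      ∏ i, ((x + (q.1 i : ZMod p)) * (x + ((q.1 i + 2 * h : ℤ) : ZMod p))⁻¹) ≠ 0)).card := by
    intro x
    have h2 := moment_w (p := p) V
      (fun d : ℤ => (x + (d : ZMod p)) * (x + ((d + 2 * h : ℤ) : ZMod p))⁻¹) w hw k
    refine le_trans (le_of_eq ?_) h2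
    refine Finset.sum_congr rfl fun χ _ => ?_
    congr 2
    refine Finset.sum_congr rfl fun d _ => ?_
    rw [pd_eq]
  refine (Finset.sum_le_sum fun x _ => h1 x).trans ?_
  rw [← Finset.mul_sum]
  refine mul_le_mul_of_nonneg_left ?_ (Nat.cast_nonneg _)
  have hswap : ∑ x : ZMod p, ((Pi ×ˢ Pi).filter (fun q =>
        ∏ i, ((x + (q.1 i : ZMod p)) * (x + ((q.1 i + 2 * h : ℤ) : ZMod p))⁻¹) =
        ∏ i, ((x + (q.2 i : ZMod p)) * (x + ((q.2 i + 2 * h : ℤ) : ZMod p))⁻¹) ∧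
      ∏ i, ((x + (q.1 i : ZMod p)) * (x + ((q.1 i + 2 * h : ℤ) : ZMod p))⁻¹) ≠ 0)).card
      = ∑ q ∈ Pi ×ˢ Pi, (univ.filter (fun x : ZMod p =>
        ∏ i, ((x + (q.1 i : ZMod p)) * (x + ((q.1 i + 2 * h : ℤ) : ZMod p))⁻¹) =
        ∏ i, ((x + (q.2 i : ZMod p)) * (x + ((q.2 i + 2 * h : ℤ) : ZMod p))⁻¹) ∧
      ∏ i, ((x + (q.1 i : ZMod p)) * (x + ((q.1 i + 2 * h : ℤ) : ZMod p))⁻¹) ≠ 0)).card := by
    simp only [Finset.card_filter]
    rw [Finset.sum_comm]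
  have hN : ∑ x : ZMod p, ((Pi ×ˢ Pi).filter (fun q =>
        ∏ i, ((x + (q.1 i : ZMod p)) * (x + ((q.1 i + 2 * h : ℤ) : ZMod p))⁻¹) =
        ∏ i, ((x + (q.2 i : ZMod p)) * (x + ((q.2 i + 2 * h : ℤ) : ZMod p))⁻¹) ∧
      ∏ i, ((x + (q.1 i : ZMod p)) * (x + ((q.1 i + 2 * h : ℤ) : ZMod p))⁻¹) ≠ 0)).card
      ≤ (12 * k) ^ (2 * k) * (2 * L) ^ k * p + (2 * k) * (2 * L) ^ (2 * k) := by
    rw [hswap, ← Finset.sum_filter_add_sum_filter_not (Pi ×ˢ Pi)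
      (fun q => ∀ l, ∃ m, m ≠ l ∧ Fin.append q.1 q.2 l - Fin.append q.1 q.2 m ∈ E3 h)]
    refine Nat.add_le_add ?_ ?_
    · refine (Finset.sum_le_card_nsmul _ _ p (fun q _ => ?_)).trans ?_
      · refine (Finset.card_le_univ _).trans (le_of_eq (ZMod.card p))
      · rw [smul_eq_mul]
        exact Nat.mul_le_mul_right _ (close_pairs k L hL1 h)
    · refine (Finset.sum_le_card_nsmul _ _ (2 * k) (fun q hq => ?_)).trans ?_
      · rw [Finset.mem_filter, Finset.mem_product, hPi, Fintype.mem_piFinset,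
          Fintype.mem_piFinset] at hq
        obtain ⟨⟨hq1, hq2⟩, hq3⟩ := hq
        push Not at hq3
        obtain ⟨l, hl⟩ := hq3
        exact count3 k L hL h hh h0 q.1 q.2 (fun i => abs_lt.2 (Finset.mem_Ioo.1 (hq1 i)))
          (fun i => abs_lt.2 (Finset.mem_Ioo.1 (hq2 i))) l hl
      · rw [smul_eq_mul, mul_comm]
        refine Nat.mul_le_mul_left _ ?_
        refine (Finset.card_filter_le _ _).trans ?_
        rw [Finset.card_product, two_mul k, pow_add]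
        exact Nat.mul_le_mul hPic hPic
  exact_mod_cast hN

theorem bad3_sum (L : ℕ) [NeZero (2 * L)] (hL1 : 1 ≤ L) (hL : 6 * L ≤ p) (T : ℝ) (hT : 0 ≤ T)
    (k : ℕ) :
    (∑ χ : DirichletCharacter ℂ p, ((Bad3 L χ T).card : ℝ)) * T ^ (2 * k)
      ≤ (2 * L : ℝ) * ((2 * L : ℝ) * ((p : ℝ) *
        (((12 * k : ℕ) : ℝ) ^ (2 * k) * (2 * L : ℝ) ^ k * p + (2 * k) * (2 * L : ℝ) ^ (2 * k)))) := by
  classical
  rw [Finset.sum_mul]
  refine (Finset.sum_le_sum fun χ _ => bad3_le L χ T hT k).trans ?_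
  rw [Finset.sum_comm]
  have h4 : ∀ h ∈ (Finset.Ioo (-(L : ℤ)) L).erase 0, ∑ χ : DirichletCharacter ℂ p,
      ∑ σ : ZMod (2 * L), ∑ W : ZMod p, ‖tw3 L χ W h σ‖ ^ (2 * k) ≤
      (2 * L : ℝ) * ((p : ℝ) * (((12 * k : ℕ) : ℝ) ^ (2 * k) * (2 * L : ℝ) ^ k * p
        + (2 * k) * (2 * L : ℝ) ^ (2 * k))) := by
    intro h hh
    rw [Finset.mem_erase, Finset.mem_Ioo] at hh
    rw [Finset.sum_comm]
    have h5 : ∀ σ : ZMod (2 * L), ∑ χ : DirichletCharacter ℂ p, ∑ W : ZMod p,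
        ‖tw3 L χ W h σ‖ ^ (2 * k) ≤ (p : ℝ) * (((12 * k : ℕ) : ℝ) ^ (2 * k) * (2 * L : ℝ) ^ k * p
        + (2 * k) * (2 * L : ℝ) ^ (2 * k)) := by
      intro σ
      rw [Finset.sum_comm]
      exact mom3_all k L hL1 hL h (abs_lt.2 hh.2) hh.1 (fun d => ps (2 * L) σ d)
        (fun d => (ps_norm _ _ _).le)
    refine (Finset.sum_le_sum fun σ _ => h5 σ).trans ?_
    rw [Finset.sum_const, Finset.card_univ, ZMod.card, nsmul_eq_mul]
    push_cast
    exact le_rfl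
  refine (Finset.sum_le_card_nsmul _ _ _ h4).trans ?_
  rw [nsmul_eq_mul]
  exact mul_le_mul_of_nonneg_right (erase_card L hL1) (by positivity)

/-- the number of characters with many bad shifts -/
theorem exc_card3 (L k : ℕ) [NeZero (2 * L)] (hL : 6 * L ≤ p) (hL1 : 1 ≤ L)
    (hk : 1 ≤ k) (hLk : (p : ℝ) ≤ (L : ℝ) ^ k) (X : ℝ) (hX : 0 < X) :
    ({χ : DirichletCharacter ℂ p |
        X < ((Bad3 L χ ((L : ℝ) ^ (1 - 1 / (2 * (k : ℝ))))).card : ℝ)}.ncard : ℝ)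
      ≤ (4 * 4 ^ k * (((12 * k : ℕ) : ℝ) ^ (2 * k) + 2 * k)) * p * (L : ℝ) ^ 3 / X := by
  classical
  set B : ℝ := (L : ℝ) ^ (1 - 1 / (2 * (k : ℝ))) with hB
  obtain ⟨c1, hc1⟩ : ∃ c1 : ℝ, c1 = ((12 * k : ℕ) : ℝ) ^ (2 * k) := ⟨_, rfl⟩
  have hc10 : 0 ≤ c1 := by rw [hc1]; positivity
  have hLR : (1 : ℝ) ≤ L := by exact_mod_cast hL1
  have hL0 : (0 : ℝ) < L := by linarith
  have hkR : (1 : ℝ) ≤ k := by exact_mod_cast hk
  have hp0 : (0 : ℝ) < p := by exact_mod_cast (Fact.out : p.Prime).pos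
  have hB0 : 0 ≤ B := by positivity
  have hBk : B ^ (2 * k) * L = (L : ℝ) ^ (2 * k) := by
    rw [hB, ← Real.rpow_natCast, ← Real.rpow_mul hL0.le]
    have e1 : (1 - 1 / (2 * (k : ℝ))) * ((2 * k : ℕ) : ℝ) = 2 * (k : ℝ) - 1 := by
      push_cast
      field_simp
    rw [e1]
    have e2 : (L : ℝ) ^ (2 * (k : ℝ) - 1) * L = (L : ℝ) ^ (2 * (k : ℝ) - 1 + 1) := by
      rw [Real.rpow_add_one hL0.ne']
    rw [e2, ← Real.rpow_natCast]
    congr 1
    push_cast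
    ring
  have h1 := bad3_sum (p := p) L hL1 hL B hB0 k
  rw [← hc1] at h1 ⊢
  -- total number of bad pairs
  have h2 : (∑ χ : DirichletCharacter ℂ p, ((Bad3 L χ B).card : ℝ))
      ≤ (4 * 4 ^ k * (c1 + 2 * k)) * p * (L : ℝ) ^ 3 := by
    have h3 : c1 * (2 * L : ℝ) ^ k * p ≤ (2 * L : ℝ) ^ (2 * k) * c1 := by
      have h4 : (p : ℝ) ≤ (2 * L : ℝ) ^ k :=
        hLk.trans (pow_le_pow_left₀ hL0.le (by linarith) k)
      calc c1 * (2 * L : ℝ) ^ k * p ≤ c1 * (2 * L : ℝ) ^ k * (2 * L : ℝ) ^ k :=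
            mul_le_mul_of_nonneg_left h4 (by positivity)
        _ = _ := by rw [two_mul k, pow_add]; ring
    have h5 : (∑ χ : DirichletCharacter ℂ p, ((Bad3 L χ B).card : ℝ)) * B ^ (2 * k)
        ≤ (2 * L : ℝ) * ((2 * L : ℝ) * ((p : ℝ) * ((2 * L : ℝ) ^ (2 * k) * (c1 + 2 * k)))) := by
      refine h1.trans ?_
      refine mul_le_mul_of_nonneg_left (mul_le_mul_of_nonneg_left
        (mul_le_mul_of_nonneg_left ?_ hp0.le) (by positivity)) (by positivity)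
      linarith
    have h6 : (∑ χ : DirichletCharacter ℂ p, ((Bad3 L χ B).card : ℝ)) * (L : ℝ) ^ (2 * k)
        ≤ ((4 * 4 ^ k * (c1 + 2 * k)) * p * (L : ℝ) ^ 3) * (L : ℝ) ^ (2 * k) := by
      rw [← hBk]
      calc (∑ χ : DirichletCharacter ℂ p, ((Bad3 L χ B).card : ℝ)) * (B ^ (2 * k) * L)
          = ((∑ χ : DirichletCharacter ℂ p, ((Bad3 L χ B).card : ℝ)) * B ^ (2 * k)) * L := by ring
        _ ≤ ((2 * L : ℝ) * ((2 * L : ℝ) * ((p : ℝ) * ((2 * L : ℝ) ^ (2 * k) * (c1 + 2 * k))))) * L :=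
            mul_le_mul_of_nonneg_right h5 hL0.le
        _ = ((4 * 4 ^ k * (c1 + 2 * k)) * p * (L : ℝ) ^ 3) * (L : ℝ) ^ (2 * k) := by
            rw [mul_pow, pow_mul (2 : ℝ) 2 k]
            norm_num
            ring
        _ = ((4 * 4 ^ k * (c1 + 2 * k)) * p * (L : ℝ) ^ 3) * (B ^ (2 * k) * L) := by rw [hBk]
    exact le_of_mul_le_mul_right h6 (by positivity)
  have h7 : {χ : DirichletCharacter ℂ p | X < ((Bad3 L χ B).card : ℝ)}
      = ((univ.filter fun χ : DirichletCharacter ℂ p => X < ((Bad3 L χ B).card : ℝ)) :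
        Finset (DirichletCharacter ℂ p)) := by
    ext χ; simp
  rw [h7, Set.ncard_coe_finset, le_div_iff₀ hX]
  refine le_trans ?_ h2
  calc ((univ.filter fun χ : DirichletCharacter ℂ p => X < ((Bad3 L χ B).card : ℝ)).card : ℝ) * X
      = ∑ χ ∈ univ.filter fun χ : DirichletCharacter ℂ p => X < ((Bad3 L χ B).card : ℝ), X := by
        rw [Finset.sum_const, nsmul_eq_mul]
    _ ≤ ∑ χ ∈ univ.filter fun χ : DirichletCharacter ℂ p => X < ((Bad3 L χ B).card : ℝ),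
          ((Bad3 L χ B).card : ℝ) :=
        Finset.sum_le_sum fun χ hχ => (Finset.mem_filter.1 hχ).2.le
    _ ≤ _ := Finset.sum_le_sum_of_subset_of_nonneg (Finset.subset_univ _) fun _ _ _ => by positivity

/-- exponents up to `1 / 4`: all characters but few, for all quadratic images -/
theorem uniform_images (δ ε K : ℝ) (hδ : 0 < δ) (hδ4 : δ ≤ 1 / 4) (hε : 0 < ε) :
    ∃ τ : ℝ, 0 < τ ∧ ∃ P : ℕ, ∀ p : ℕ, p.Prime → P ≤ p →
      ({χ : DirichletCharacter ℂ p | ∃ A B : Finset (ZMod p), A.Nonempty ∧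
        (p : ℝ) ^ δ < (B.card : ℝ) ∧ ((B + B).card : ℝ) ≤ K * B.card ∧
        ((A + B).card : ℝ) ≤ (p : ℝ) ^ τ * A.card ∧
        ((∃ f g h : ZMod p → ℂ, (∀ s, ‖h s‖ ≤ 1) ∧
          (A.card : ℝ) ^ (1 - τ) *
            (Real.sqrt (∑ a ∈ A, ‖f a‖ ^ 2) * Real.sqrt (∑ b ∈ A, ‖g b‖ ^ 2)) <
            ‖∑ a ∈ A, ∑ b ∈ A, f a * g b * h (a + b) * χ (a - b)‖) ∨
        (∃ A' : Finset (ZMod p), A' ⊆ A ∧ (A.card : ℝ) ≤ (p : ℝ) ^ τ * A'.card ∧
          ∃ u v α β γ η : ZMod p, (u ≠ 0 ∨ v ≠ 0) ∧ α * η - β * γ ≠ 0 ∧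
            (∀ a ∈ A', γ * (u * a ^ 2 + v * a) + η ≠ 0) ∧ ∃ C : Finset (ZMod p),
            C = (A'.image fun a =>
              (α * (u * a ^ 2 + v * a) + β) * (γ * (u * a ^ 2 + v * a) + η)⁻¹) ∧
            (C.card : ℝ) ^ (2 - τ) ≤ ‖∑ x ∈ C, ∑ y ∈ C, χ (x - y)‖))}.ncard : ℝ)
        ≤ (p : ℝ) ^ (1 - 2 * δ + ε) := by
  classical
  obtain ⟨e, hedef⟩ : ∃ e : ℝ, e = min (ε / 16) (min (δ / 8) (1 / 16)) := ⟨_, rfl⟩
  have he0 : 0 < e := by
    rw [hedef]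
    exact lt_min (by linarith) (lt_min (by linarith) (by norm_num))
  have he1 : e ≤ ε / 16 := by rw [hedef]; exact min_le_left _ _
  have he2 : e ≤ δ / 8 := by rw [hedef]; exact (min_le_right _ _).trans (min_le_left _ _)
  have he3 : e ≤ 1 / 16 := by rw [hedef]; exact (min_le_right _ _).trans (min_le_right _ _)
  obtain ⟨κ, hκ0, hκe, hrest⟩ := invariantK (δ - 4 * e) e K (by linarith) he0 he3
    (by linarith)
  obtain ⟨k, hk⟩ := exists_nat_ge (2 / κ)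
  have hκk : 1 ≤ κ / 2 * k := by
    rw [div_le_iff₀ hκ0] at hk
    linarith
  have hk1 : 1 ≤ k := by
    rcases Nat.eq_zero_or_pos k with h | h
    · subst h
      simp at hκk
      linarith
    · exact h
  have hkR : (1 : ℝ) ≤ k := by exact_mod_cast hk1
  obtain ⟨C4, hC4⟩ : ∃ C4 : ℝ, C4 = 4 * 4 ^ k * (((12 * k : ℕ) : ℝ) ^ (2 * k) + 2 * k) := ⟨_, rfl⟩
  have hC40 : 0 ≤ C4 := by rw [hC4]; positivity
  obtain ⟨τ, hτ, P2, hP2⟩ := hrest (4 * k) (by omega)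
  obtain ⟨P3, hP3⟩ := large_rpow κ 1 hκ0
  obtain ⟨P4, hP4⟩ := large_rpow (κ / 2) 6 (by positivity)
  obtain ⟨P5, hP5⟩ := large_rpow (ε / 4) C4 (by positivity)
  obtain ⟨P6, hP6⟩ := large_rpow (κ / 2 * (1 / (4 * (k : ℝ)))) 4 (by positivity)
  obtain ⟨P7, hP7⟩ := large_rpow τ 2 hτ
  refine ⟨τ, hτ, P2 + P3 + P4 + P5 + P6 + P7, ?_⟩
  intro p hpp hp
  have : Fact p.Prime := ⟨hpp⟩
  have hP4' := hP4 p (by omega)
  have hP5' := hP5 p (by omega)
  have hP6' := hP6 p (by omega)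
  have hP7' := hP7 p (by omega)
  have hp1n : 1 < p := hpp.one_lt
  have hp1 : (1 : ℝ) ≤ p := by exact_mod_cast hp1n.le
  have hp0 : (0 : ℝ) < p := by linarith
  obtain ⟨L, hLdef⟩ : ∃ L : ℕ, L = ⌊(p : ℝ) ^ κ⌋₊ := ⟨_, rfl⟩
  have hL1 : 1 ≤ L := by
    rw [hLdef]
    exact Nat.le_floor (by
      have := hP3 p (by omega)
      push_cast
      exact this.le)
  have : NeZero (2 * L) := ⟨by omega⟩
  have hLle : (L : ℝ) ≤ (p : ℝ) ^ κ := by rw [hLdef]; exact Nat.floor_le (by positivity)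
  have hLlt : (p : ℝ) ^ κ < L + 1 := by rw [hLdef]; exact Nat.lt_floor_add_one _
  have hL0 : (0 : ℝ) < L := by exact_mod_cast hL1
  have hLR : (1 : ℝ) ≤ L := by exact_mod_cast hL1
  have hLbig : (p : ℝ) ^ (κ / 2) ≤ L := by
    have e1 : (p : ℝ) ^ κ = (p : ℝ) ^ (κ / 2) * (p : ℝ) ^ (κ / 2) := by
      rw [← Real.rpow_add hp0]; congr 1; ring
    rw [e1] at hLlt
    nlinarith [Real.rpow_pos_of_pos hp0 (κ / 2)]
  have hLk : (p : ℝ) ≤ (L : ℝ) ^ k := by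
    calc (p : ℝ) = (p : ℝ) ^ (1 : ℝ) := (Real.rpow_one _).symm
      _ ≤ (p : ℝ) ^ (κ / 2 * k) := Real.rpow_le_rpow_of_exponent_le hp1 hκk
      _ = ((p : ℝ) ^ (κ / 2)) ^ k := by rw [Real.rpow_mul hp0.le, Real.rpow_natCast]
      _ ≤ (L : ℝ) ^ k := pow_le_pow_left₀ (by positivity) hLbig k
  have hLp : 6 * L ≤ p := by
    have h1 : (p : ℝ) ^ (κ / 2) ≤ (p : ℝ) ^ (1 - κ) :=
      Real.rpow_le_rpow_of_exponent_le hp1 (by linarith)
    have h3 : (6 : ℝ) * L ≤ p := by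
      calc (6 : ℝ) * L ≤ (p : ℝ) ^ (1 - κ) * (p : ℝ) ^ κ :=
            mul_le_mul (hP4'.le.trans h1) hLle hL0.le (by positivity)
        _ = p := by rw [← Real.rpow_add hp0]; norm_num
    exact_mod_cast h3
  have hexc := exc_card3 (p := p) L k hLp hL1 hk1 hLk ((p : ℝ) ^ (2 * (δ - 4 * e))) (by positivity)
  have hker : ∀ χ : DirichletCharacter ℂ p, ∀ η : ZMod p → ℂ, (∀ x, ‖η x‖ ≤ 1) →
        KerP L (Bad3 L χ ((L : ℝ) ^ (1 - 1 / (2 * (k : ℝ)))))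
          ((L : ℝ) ^ (1 - 1 / (2 * ((4 * k : ℕ) : ℝ)))) (fun a b => χ (a - b) * η (a + b)) := by
    intro χ η hη
    refine kerP_mono (kerP_of L χ _ (by positivity) η hη) (sqrt_size L k hL1 hk1 ?_)
    calc (4 : ℝ) ≤ (p : ℝ) ^ (κ / 2 * (1 / (4 * (k : ℝ)))) := hP6'.le
      _ = ((p : ℝ) ^ (κ / 2)) ^ (1 / (4 * (k : ℝ))) := by rw [Real.rpow_mul hp0.le]
      _ ≤ (L : ℝ) ^ (1 / (4 * (k : ℝ))) :=
          Real.rpow_le_rpow (by positivity) hLbig (by positivity)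
  have hexc' := hexc
  rw [← hC4] at hexc'
  refine le_trans ?_ (hexc'.trans ?_)
  · have hsub : ∀ χ : DirichletCharacter ℂ p, (∃ A B : Finset (ZMod p), A.Nonempty ∧
        (p : ℝ) ^ δ < (B.card : ℝ) ∧ ((B + B).card : ℝ) ≤ K * B.card ∧
        ((A + B).card : ℝ) ≤ (p : ℝ) ^ τ * A.card ∧
        ((∃ f g h : ZMod p → ℂ, (∀ s, ‖h s‖ ≤ 1) ∧
          (A.card : ℝ) ^ (1 - τ) *
            (Real.sqrt (∑ a ∈ A, ‖f a‖ ^ 2) * Real.sqrt (∑ b ∈ A, ‖g b‖ ^ 2)) <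
            ‖∑ a ∈ A, ∑ b ∈ A, f a * g b * h (a + b) * χ (a - b)‖) ∨
        (∃ A' : Finset (ZMod p), A' ⊆ A ∧ (A.card : ℝ) ≤ (p : ℝ) ^ τ * A'.card ∧
          ∃ u v α β γ η : ZMod p, (u ≠ 0 ∨ v ≠ 0) ∧ α * η - β * γ ≠ 0 ∧
            (∀ a ∈ A', γ * (u * a ^ 2 + v * a) + η ≠ 0) ∧ ∃ C : Finset (ZMod p),
            C = (A'.image fun a =>
              (α * (u * a ^ 2 + v * a) + β) * (γ * (u * a ^ 2 + v * a) + η)⁻¹) ∧
            (C.card : ℝ) ^ (2 - τ) ≤ ‖∑ x ∈ C, ∑ y ∈ C, χ (x - y)‖))) →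
        (p : ℝ) ^ (2 * (δ - 4 * e))
          < ((Bad3 L χ ((L : ℝ) ^ (1 - 1 / (2 * (k : ℝ))))).card : ℝ) := by
      rintro χ ⟨A, B, hA, hB, hBK, hAB, hcase⟩
      by_contra hcon
      have hM : ∀ η : ZMod p → ℂ, (∀ x, ‖η x‖ ≤ 1) →
        ∀ f g : ZMod p → ℂ, ‖∑ a ∈ A, ∑ b ∈ A, f a * g b * (χ (a - b) * η (a + b))‖
          ≤ (p : ℝ) ^ (-(3 * τ)) * A.card *
            (Real.sqrt (∑ a ∈ A, ‖f a‖ ^ 2) * Real.sqrt (∑ b ∈ A, ‖g b‖ ^ 2)) := by
        intro η hη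
        refine hP2 p (by omega) _ _ L hLdef (not_lt.1 hcon) ?_ (hker χ η hη) B ?_ hBK A hA hAB
        · intro a b
          rw [norm_mul]
          exact mul_le_one₀ (DirichletCharacter.norm_le_one χ _) (norm_nonneg _) (hη _)
        · rw [show δ - 4 * e + 4 * e = δ by ring]
          exact hB
      obtain ⟨c1, c2⟩ := conclude τ hτ hP7' χ A hA hM
      rcases hcase with ⟨f, g, h, hh, hlt⟩ | ⟨A', hA', hAA', u, v, α, β, γ, η, huv, hdet, hden, C,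
        hC, hle⟩
      · exact absurd hlt (not_lt.2 (c1 f g h hh))
      · exact absurd hle (not_le.2 (c2 A' hA' hAA' u v α β γ η huv hdet hden C hC))
    exact_mod_cast Set.ncard_le_ncard (fun χ hχ => hsub χ hχ) (Set.toFinite _)
  · rw [div_le_iff₀ (by positivity)]
    have hL2 : (L : ℝ) ^ 3 ≤ (p : ℝ) ^ (3 * κ) := by
      calc (L : ℝ) ^ 3 ≤ ((p : ℝ) ^ κ) ^ 3 := pow_le_pow_left₀ hL0.le hLle _
        _ = (p : ℝ) ^ (3 * κ) := by
            rw [← Real.rpow_natCast, ← Real.rpow_mul hp0.le]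
            congr 1
            push_cast
            ring
    calc C4 * p * (L : ℝ) ^ 3
        ≤ (p : ℝ) ^ (ε / 4) * p * (p : ℝ) ^ (3 * κ) := by
          refine mul_le_mul (mul_le_mul_of_nonneg_right hP5'.le hp0.le) hL2 (by positivity)
            (by positivity)
      _ = (p : ℝ) ^ (ε / 4 + 1 + 3 * κ) := by
          rw [Real.rpow_add hp0, Real.rpow_add hp0, Real.rpow_one]
      _ ≤ (p : ℝ) ^ ((1 - 2 * δ + ε) + 2 * (δ - 4 * e)) :=
          Real.rpow_le_rpow_of_exponent_le hp1 (by linarith)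
      _ = (p : ℝ) ^ (1 - 2 * δ + ε) * (p : ℝ) ^ (2 * (δ - 4 * e)) := by rw [Real.rpow_add hp0]

end Pool.Agent.TH920.QI
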