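import Pool.Agent.W27.BG.Shift

/-! Bilinear forms with a general kernel on sets that are stable under a few shifts
(after `Pool.Agent.W27.BG.Shift`). -/

set_option autoImplicit false

open Finset

namespace Pool.Agent.TH920.QI

open Pool.Agent.W27.SD Pool.Agent.W27.BG

variable {p : ℕ} [Fact p.Prime]

/-- all forms with the kernel `Kr` on `L × L` grids with common step `z` whose base points `t`, `t'`
have `(t - t') / z` outside the exceptional set `X` are small -/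
def KerP (L : ℕ) (X : Finset (ZMod p)) (B : ℝ) (Kr : ZMod p → ZMod p → ℂ) : Prop :=
  ∀ z : ZMod p, z ≠ 0 → ∀ t t' : ZMod p, (t - t') * z⁻¹ ∉ X → ∀ F G : ℤ → ℂ,
    ‖∑ i ∈ Finset.Ico 0 (L : ℤ), ∑ j ∈ Finset.Ico 0 (L : ℤ),
      F i * G j * Kr (t + (i : ZMod p) * z) (t' + (j : ZMod p) * z)‖
      ≤ B * (((∑ i ∈ Finset.Ico 0 (L : ℤ), ‖F i‖ ^ 2) + ∑ j ∈ Finset.Ico 0 (L : ℤ), ‖G j‖ ^ 2) / 2)

theorem shift_boundK (L : ℕ) [NeZero (2 * L)] (X : Finset (ZMod p)) (Kr : ZMod p → ZMod p → ℂ)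
    (hK1 : ∀ a b, ‖Kr a b‖ ≤ 1) (B : ℝ) (hB : 0 ≤ B) (hK : KerP L X B Kr)
    (z : ZMod p) (hz : z ≠ 0) (A₁ A₂ U₁ U₂ : Finset (ZMod p)) (f g : ZMod p → ℂ)
    (h1 : ∀ a ∈ A₁, ∀ i : ℤ, 0 ≤ i → i < L → a - (i : ZMod p) * z ∈ U₁)
    (h2 : ∀ a ∈ A₂, ∀ i : ℤ, 0 ≤ i → i < L → a - (i : ZMod p) * z ∈ U₂)
    (u R : ℝ) (hu1 : (U₁.card : ℝ) ≤ u) (hu2 : (U₂.card : ℝ) ≤ u)
    (hR1 : ∀ t ∈ U₁, ((U₂.filter (fun t' => (t - t') * z⁻¹ ∈ X)).card : ℝ) ≤ R)
    (hR2 : ∀ t' ∈ U₂, ((U₁.filter (fun t => (t - t') * z⁻¹ ∈ X)).card : ℝ) ≤ R) :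
    ‖∑ a ∈ A₁, ∑ b ∈ A₂, f a * g b * Kr a b‖
      ≤ (B / L * u + R) * ((∑ a ∈ A₁, ‖f a‖ ^ 2 + ∑ b ∈ A₂, ‖g b‖ ^ 2) / 2) := by
  classical
  have hL0 : 0 < L := by
    rcases Nat.eq_zero_or_pos L with h | h
    · exfalso
      subst h
      exact NeZero.ne (2 * 0) rfl
    · exact h
  have hLR : (0 : ℝ) < L := by exact_mod_cast hL0
  set I := Finset.Ico 0 (L : ℤ) with hI
  have hIcard : (I.card : ℝ) = L := by
    rw [hI, Int.card_Ico]; simp
  set F : ZMod p → ℂ := fun a => if a ∈ A₁ then f a else 0 with hF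
  set G : ZMod p → ℂ := fun a => if a ∈ A₂ then g a else 0 with hG
  set α : ZMod p → ℝ := fun t => ∑ i ∈ I, ‖F (t + (i : ZMod p) * z)‖ ^ 2 with hα
  set β : ZMod p → ℝ := fun t => ∑ i ∈ I, ‖G (t + (i : ZMod p) * z)‖ ^ 2 with hβ
  have hα0 : ∀ t, 0 ≤ α t := fun t => Finset.sum_nonneg fun _ _ => by positivity
  have hβ0 : ∀ t, 0 ≤ β t := fun t => Finset.sum_nonneg fun _ _ => by positivity
  -- total masses
  have hαsum : ∑ t ∈ U₁, α t = L * ∑ a ∈ A₁, ‖f a‖ ^ 2 := by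
    have e1 : ∀ i ∈ I, ∑ t ∈ U₁, ‖F (t + (i : ZMod p) * z)‖ ^ 2 = ∑ a ∈ A₁, ‖f a‖ ^ 2 := by
      intro i hi
      have hi' := Finset.mem_Ico.1 hi
      rw [sum_shift A₁ U₁ ((i : ZMod p) * z) (fun a ha => h1 a ha i hi'.1 hi'.2)
        (fun a => ‖f a‖ ^ 2)]
      refine Finset.sum_congr rfl fun t _ => ?_
      simp only [hF]
      split_ifs <;> simp
    simp only [hα]
    rw [Finset.sum_comm, Finset.sum_congr rfl e1, Finset.sum_const, nsmul_eq_mul, hIcard]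
  have hβsum : ∑ t ∈ U₂, β t = L * ∑ a ∈ A₂, ‖g a‖ ^ 2 := by
    have e1 : ∀ i ∈ I, ∑ t ∈ U₂, ‖G (t + (i : ZMod p) * z)‖ ^ 2 = ∑ a ∈ A₂, ‖g a‖ ^ 2 := by
      intro i hi
      have hi' := Finset.mem_Ico.1 hi
      rw [sum_shift A₂ U₂ ((i : ZMod p) * z) (fun a ha => h2 a ha i hi'.1 hi'.2)
        (fun a => ‖g a‖ ^ 2)]
      refine Finset.sum_congr rfl fun t _ => ?_
      simp only [hG]
      split_ifs <;> simp
    simp only [hβ]
    rw [Finset.sum_comm, Finset.sum_congr rfl e1, Finset.sum_const, nsmul_eq_mul, hIcard]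
  -- the averaged identity
  have key : (L : ℂ) ^ 2 * ∑ a ∈ A₁, ∑ b ∈ A₂, f a * g b * Kr a b
      = ∑ t ∈ U₁, ∑ t' ∈ U₂, ∑ i ∈ I, ∑ j ∈ I,
        F (t + (i : ZMod p) * z) * G (t' + (j : ZMod p) * z)
          * Kr (t + (i : ZMod p) * z) (t' + (j : ZMod p) * z) := by
    have e1 : ∀ i ∈ I, ∀ j ∈ I, ∑ a ∈ A₁, ∑ b ∈ A₂, f a * g b * Kr a b
        = ∑ t ∈ U₁, ∑ t' ∈ U₂, F (t + (i : ZMod p) * z) * G (t' + (j : ZMod p) * z)
          * Kr (t + (i : ZMod p) * z) (t' + (j : ZMod p) * z) := by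
      intro i hi j hj
      have hi' := Finset.mem_Ico.1 hi
      have hj' := Finset.mem_Ico.1 hj
      rw [sum_shift A₁ U₁ ((i : ZMod p) * z) (fun a ha => h1 a ha i hi'.1 hi'.2)]
      refine Finset.sum_congr rfl fun t _ => ?_
      by_cases ht : t + (i : ZMod p) * z ∈ A₁
      · rw [if_pos ht, sum_shift A₂ U₂ ((j : ZMod p) * z) (fun a ha => h2 a ha j hj'.1 hj'.2)]
        refine Finset.sum_congr rfl fun t' _ => ?_
        simp only [hF, hG]
        rw [if_pos ht]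
        by_cases ht' : t' + (j : ZMod p) * z ∈ A₂
        · rw [if_pos ht', if_pos ht']
        · rw [if_neg ht', if_neg ht', mul_zero, zero_mul]
      · rw [if_neg ht]
        symm
        refine Finset.sum_eq_zero fun t' _ => ?_
        simp only [hF]
        rw [if_neg ht, zero_mul, zero_mul]
    have e2 : (L : ℂ) ^ 2 * ∑ a ∈ A₁, ∑ b ∈ A₂, f a * g b * Kr a b
        = ∑ i ∈ I, ∑ j ∈ I, ∑ a ∈ A₁, ∑ b ∈ A₂, f a * g b * Kr a b := by
      have hIc : (I.card : ℂ) = L := by exact_mod_cast hIcard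
      rw [Finset.sum_const, Finset.sum_const, nsmul_eq_mul, nsmul_eq_mul, hIc]
      ring
    rw [e2, Finset.sum_congr rfl fun i hi => Finset.sum_congr rfl fun j hj => e1 i hi j hj]
    calc _ = ∑ i ∈ I, ∑ t ∈ U₁, ∑ j ∈ I, ∑ t' ∈ U₂,
          F (t + (i : ZMod p) * z) * G (t' + (j : ZMod p) * z)
          * Kr (t + (i : ZMod p) * z) (t' + (j : ZMod p) * z) :=
            Finset.sum_congr rfl fun i _ => Finset.sum_comm
      _ = ∑ t ∈ U₁, ∑ i ∈ I, ∑ j ∈ I, ∑ t' ∈ U₂,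
          F (t + (i : ZMod p) * z) * G (t' + (j : ZMod p) * z)
          * Kr (t + (i : ZMod p) * z) (t' + (j : ZMod p) * z) := Finset.sum_comm
      _ = ∑ t ∈ U₁, ∑ i ∈ I, ∑ t' ∈ U₂, ∑ j ∈ I,
          F (t + (i : ZMod p) * z) * G (t' + (j : ZMod p) * z)
          * Kr (t + (i : ZMod p) * z) (t' + (j : ZMod p) * z) :=
            Finset.sum_congr rfl fun t _ => Finset.sum_congr rfl fun i _ => Finset.sum_comm
      _ = _ := Finset.sum_congr rfl fun t _ => Finset.sum_comm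
  -- bound of one term
  have hterm : ∀ t t', ‖∑ i ∈ I, ∑ j ∈ I,
        F (t + (i : ZMod p) * z) * G (t' + (j : ZMod p) * z)
          * Kr (t + (i : ZMod p) * z) (t' + (j : ZMod p) * z)‖
      ≤ B * ((α t + β t') / 2)
        + (if (t - t') * z⁻¹ ∈ X then (L : ℝ) * ((α t + β t') / 2) else 0) := by
    intro t t'
    split_ifs with hb
    · have h3 : ‖∑ i ∈ I, ∑ j ∈ I, F (t + (i : ZMod p) * z) * G (t' + (j : ZMod p) * z)
          * Kr (t + (i : ZMod p) * z) (t' + (j : ZMod p) * z)‖ ≤ (L : ℝ) * ((α t + β t') / 2) := by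
        refine (norm_sum_le _ _).trans ?_
        have h4 : ∀ i ∈ I, ‖∑ j ∈ I, F (t + (i : ZMod p) * z) * G (t' + (j : ZMod p) * z)
          * Kr (t + (i : ZMod p) * z) (t' + (j : ZMod p) * z)‖
            ≤ ∑ j ∈ I, (‖F (t + (i : ZMod p) * z)‖ ^ 2 + ‖G (t' + (j : ZMod p) * z)‖ ^ 2) / 2 := by
          intro i _
          refine (norm_sum_le _ _).trans (Finset.sum_le_sum fun j _ => ?_)
          rw [norm_mul, norm_mul]
          refine (mul_le_of_le_one_right (by positivity) (hK1 _ _)).trans ?_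
          nlinarith [sq_nonneg (‖F (t + (i : ZMod p) * z)‖ - ‖G (t' + (j : ZMod p) * z)‖)]
        refine (Finset.sum_le_sum h4).trans (le_of_eq ?_)
        simp only [hα, hβ]
        have h5 : ∀ i ∈ I, ∑ j ∈ I,
            (‖F (t + (i : ZMod p) * z)‖ ^ 2 + ‖G (t' + (j : ZMod p) * z)‖ ^ 2) / 2
            = (L * ‖F (t + (i : ZMod p) * z)‖ ^ 2
              + ∑ j ∈ I, ‖G (t' + (j : ZMod p) * z)‖ ^ 2) / 2 := by
          intro i _
          rw [← Finset.sum_div, Finset.sum_add_distrib, Finset.sum_const, nsmul_eq_mul, hIcard]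
        rw [Finset.sum_congr rfl h5, ← Finset.sum_div, Finset.sum_add_distrib, Finset.sum_const,
          nsmul_eq_mul, hIcard, ← Finset.mul_sum]
        ring
      have h6 : 0 ≤ B * ((α t + β t') / 2) := by
        have := hα0 t
        have := hβ0 t'
        positivity
      linarith
    · rw [add_zero]
      exact hK z hz t t' hb (fun i => F (t + (i : ZMod p) * z)) (fun j => G (t' + (j : ZMod p) * z))
  -- summation
  set fs := ∑ a ∈ A₁, ‖f a‖ ^ 2 with hfs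
  set gs := ∑ b ∈ A₂, ‖g b‖ ^ 2 with hgs
  have hfs0 : 0 ≤ fs := Finset.sum_nonneg fun _ _ => by positivity
  have hgs0 : 0 ≤ gs := Finset.sum_nonneg fun _ _ => by positivity
  have hsum : (L : ℝ) ^ 2 * ‖∑ a ∈ A₁, ∑ b ∈ A₂, f a * g b * Kr a b‖
      ≤ (L : ℝ) ^ 2 * ((B / L * u + R) * ((fs + gs) / 2)) := by
    have h3 : (L : ℝ) ^ 2 * ‖∑ a ∈ A₁, ∑ b ∈ A₂, f a * g b * Kr a b‖
        = ‖(L : ℂ) ^ 2 * ∑ a ∈ A₁, ∑ b ∈ A₂, f a * g b * Kr a b‖ := by
      rw [norm_mul, norm_pow, Complex.norm_natCast]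
    rw [h3, key]
    refine (norm_sum_le _ _).trans ?_
    refine (Finset.sum_le_sum fun t _ => norm_sum_le _ _).trans ?_
    refine (Finset.sum_le_sum fun t _ => Finset.sum_le_sum fun t' _ => hterm t t').trans ?_
    have h4 : ∑ t ∈ U₁, ∑ t' ∈ U₂, (B * ((α t + β t') / 2)
        + (if (t - t') * z⁻¹ ∈ X then (L : ℝ) * ((α t + β t') / 2) else 0))
        = ∑ t ∈ U₁, ∑ t' ∈ U₂, B * ((α t + β t') / 2)
          + (∑ t ∈ U₁, ∑ t' ∈ U₂,
              (if (t - t') * z⁻¹ ∈ X then (L : ℝ) / 2 * α t else 0)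
            + ∑ t' ∈ U₂, ∑ t ∈ U₁,
              (if (t - t') * z⁻¹ ∈ X then (L : ℝ) / 2 * β t' else 0)) := by
      rw [Finset.sum_comm (s := U₂) (t := U₁), ← Finset.sum_add_distrib, ← Finset.sum_add_distrib]
      refine Finset.sum_congr rfl fun t _ => ?_
      rw [← Finset.sum_add_distrib, ← Finset.sum_add_distrib]
      refine Finset.sum_congr rfl fun t' _ => ?_
      split_ifs
      · ring
      · ring
    rw [h4]
    have h5 : ∑ t ∈ U₁, ∑ t' ∈ U₂, B * ((α t + β t') / 2)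
        ≤ B * u * L * ((fs + gs) / 2) := by
      have h6 : ∑ t ∈ U₁, ∑ t' ∈ U₂, B * ((α t + β t') / 2)
          = B / 2 * (U₂.card * (L * fs) + U₁.card * (L * gs)) := by
        have h7 : ∀ t ∈ U₁, ∑ t' ∈ U₂, B * ((α t + β t') / 2)
            = B / 2 * (U₂.card * α t + L * gs) := by
          intro t _
          rw [← Finset.mul_sum, ← Finset.sum_div, Finset.sum_add_distrib, hβsum, Finset.sum_const,
            nsmul_eq_mul]
          ring
        rw [Finset.sum_congr rfl h7, ← Finset.mul_sum, Finset.sum_add_distrib, ← Finset.mul_sum,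
          hαsum, Finset.sum_const, nsmul_eq_mul]
      rw [h6]
      have h8 : (U₂.card : ℝ) * (L * fs) ≤ u * (L * fs) :=
        mul_le_mul_of_nonneg_right hu2 (by positivity)
      have h9 : (U₁.card : ℝ) * (L * gs) ≤ u * (L * gs) :=
        mul_le_mul_of_nonneg_right hu1 (by positivity)
      calc B / 2 * (U₂.card * (L * fs) + U₁.card * (L * gs))
          ≤ B / 2 * (u * (L * fs) + u * (L * gs)) :=
            mul_le_mul_of_nonneg_left (by linarith) (by positivity)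
        _ = _ := by ring
    have h10 : ∑ t ∈ U₁, ∑ t' ∈ U₂,
        (if (t - t') * z⁻¹ ∈ X then (L : ℝ) / 2 * α t else 0) ≤ L / 2 * R * (L * fs) := by
      rw [← hαsum, Finset.mul_sum]
      refine Finset.sum_le_sum fun t ht => ?_
      rw [← Finset.sum_filter, Finset.sum_const, nsmul_eq_mul]
      have h11 : (0 : ℝ) ≤ L / 2 * α t := mul_nonneg (by positivity) (hα0 t)
      calc _ ≤ R * ((L : ℝ) / 2 * α t) := mul_le_mul_of_nonneg_right (hR1 t ht) h11
        _ = _ := by ring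
    have h12 : ∑ t' ∈ U₂, ∑ t ∈ U₁,
        (if (t - t') * z⁻¹ ∈ X then (L : ℝ) / 2 * β t' else 0) ≤ L / 2 * R * (L * gs) := by
      rw [← hβsum, Finset.mul_sum]
      refine Finset.sum_le_sum fun t' ht' => ?_
      rw [← Finset.sum_filter, Finset.sum_const, nsmul_eq_mul]
      have h11 : (0 : ℝ) ≤ L / 2 * β t' := mul_nonneg (by positivity) (hβ0 t')
      calc _ ≤ R * ((L : ℝ) / 2 * β t') := mul_le_mul_of_nonneg_right (hR2 t' ht') h11
        _ = _ := by ring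
    calc _ ≤ B * u * L * ((fs + gs) / 2) + (L / 2 * R * (L * fs) + L / 2 * R * (L * gs)) :=
          add_le_add h5 (add_le_add h10 h12)
      _ = _ := by
          field_simp
  exact le_of_mul_le_mul_left hsum (by positivity)

end Pool.Agent.TH920.QI
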