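import Pool.Agent.W27.BG.ToeplitzW
import Pool.Agent.W27.BG.Final

/-! Forms `∑ a_i b_j H(i+j) c(i-j)` on an interval, `H` arbitrary, are bounded by twisted sums of
`c(d) conj c(d+2h)`. -/

set_option autoImplicit false

open Finset

namespace Pool.Agent.TH920.QI

open Pool.Agent.W27.SD Pool.Agent.W27.BG

/-- translating a sum over a finite set of integers -/
theorem sum_tr (I J : Finset ℤ) (φ : ℤ → ℂ) (hφ : ∀ x, x ∉ I → φ x = 0) (i : ℤ)
    (h : ∀ x ∈ I, x - i ∈ J) : ∑ x ∈ I, φ x = ∑ y ∈ J, φ (y + i) := by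
  have h1 : ∑ y ∈ J, φ (y + i) = ∑ x ∈ J.image (fun y => y + i), φ x := by
    rw [Finset.sum_image (fun a _ b _ hab => add_right_cancel hab)]
  rw [h1]
  refine Finset.sum_subset ?_ ?_
  · intro x hx
    rw [Finset.mem_image]
    exact ⟨x - i, h x hx, by ring⟩
  · intro x _ hx
    exact hφ x hx

/-- the product form of the Toeplitz bound -/
theorem toeplitz_gm (L : ℕ) [NeZero (2 * L)] (f : ℤ → ℂ) (B : ℝ) (hB0 : 0 ≤ B)
    (hB : ∀ σ : ZMod (2 * L), ‖∑ h ∈ Finset.Ioo (-(L : ℤ)) L, f h * ps (2 * L) σ h‖ ≤ B)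
    (a b : ℤ → ℂ) :
    ‖∑ i ∈ Finset.Ico 0 (L : ℤ), ∑ j ∈ Finset.Ico 0 (L : ℤ), a i * b j * f (i - j)‖
      ≤ B * (Real.sqrt (∑ i ∈ Finset.Ico 0 (L : ℤ), ‖a i‖ ^ 2) *
        Real.sqrt (∑ j ∈ Finset.Ico 0 (L : ℤ), ‖b j‖ ^ 2)) :=
  amgm_form (Finset.Ico 0 (L : ℤ)) (fun i j => f (i - j)) B hB0
    (fun a b => toeplitz_w L f B hB0 hB a b) a b

theorem u3_form (L : ℕ) [NeZero (2 * L)] (c H : ℤ → ℂ) (hc : ∀ d, ‖c d‖ ≤ 1) (hH : ∀ d, ‖H d‖ ≤ 1)
    (T : ℝ) (hT0 : 0 ≤ T)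
    (hT : ∀ h ∈ Finset.Ioo (-(L : ℤ)) L, h ≠ 0 → ∀ σ : ZMod (2 * L),
      ‖∑ d ∈ Finset.Ioo (-(L : ℤ)) L, c d * (starRingEnd ℂ) (c (d + 2 * h)) * ps (2 * L) σ d‖ ≤ T)
    (a b : ℤ → ℂ) :
    ‖∑ i ∈ Finset.Ico 0 (L : ℤ), ∑ j ∈ Finset.Ico 0 (L : ℤ), a i * b j * (H (i + j) * c (i - j))‖
      ≤ Real.sqrt (2 * L * (1 + T)) *
        (((∑ i ∈ Finset.Ico 0 (L : ℤ), ‖a i‖ ^ 2) + ∑ j ∈ Finset.Ico 0 (L : ℤ), ‖b j‖ ^ 2) / 2) := by
  classical
  set I := Finset.Ico 0 (L : ℤ) with hI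
  set J := Finset.Ioo (-(L : ℤ)) L with hJ
  set K := Finset.Ico 0 (2 * (L : ℤ)) with hK
  set a' : ℤ → ℂ := fun i => if i ∈ I then a i else 0 with ha'
  set b' : ℤ → ℂ := fun i => if i ∈ I then b i else 0 with hb'
  have ha'0 : ∀ i, i ∉ I → a' i = 0 := fun i hi => by simp only [ha']; rw [if_neg hi]
  have hb'0 : ∀ i, i ∉ I → b' i = 0 := fun i hi => by simp only [hb']; rw [if_neg hi]
  have ha'1 : ∀ i ∈ I, a' i = a i := fun i hi => by simp only [ha']; rw [if_pos hi]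
  have hb'1 : ∀ i ∈ I, b' i = b i := fun i hi => by simp only [hb']; rw [if_pos hi]
  set A : ℝ := ∑ i ∈ I, ‖a i‖ ^ 2 with hA
  set B : ℝ := ∑ i ∈ I, ‖b i‖ ^ 2 with hB
  have hA0 : 0 ≤ A := Finset.sum_nonneg fun _ _ => by positivity
  have hB0 : 0 ≤ B := Finset.sum_nonneg fun _ _ => by positivity
  have hAa : ∑ i ∈ I, ‖a' i‖ ^ 2 = A := Finset.sum_congr rfl fun i hi => by rw [ha'1 i hi]
  have hBb : ∑ i ∈ I, ‖b' i‖ ^ 2 = B := Finset.sum_congr rfl fun i hi => by rw [hb'1 i hi]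
  -- regrouping along i + j = s
  set G : ℤ → ℂ := fun s => ∑ i ∈ I, a' i * b' (s - i) * c (2 * i - s) with hG
  have hS : ∑ i ∈ I, ∑ j ∈ I, a i * b j * (H (i + j) * c (i - j)) = ∑ s ∈ K, H s * G s := by
    have e1 : ∀ i ∈ I, ∑ j ∈ I, a i * b j * (H (i + j) * c (i - j))
        = ∑ s ∈ K, H s * (a' i * b' (s - i) * c (2 * i - s)) := by
      intro i hi
      have hi' := Finset.mem_Ico.1 hi
      have e2 : ∑ j ∈ I, a i * b j * (H (i + j) * c (i - j))
          = ∑ j ∈ I, a' i * b' j * (H (i + j) * c (i - j)) := by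
        refine Finset.sum_congr rfl fun j hj => ?_
        rw [ha'1 i hi, hb'1 j hj]
      rw [e2, sum_tr I K (fun j => a' i * b' j * (H (i + j) * c (i - j)))
        (fun x hx => by rw [hb'0 x hx]; ring) (-i) (fun x hx => by
          have hx' := Finset.mem_Ico.1 hx
          rw [Finset.mem_Ico]
          constructor <;> omega)]
      refine Finset.sum_congr rfl fun s _ => ?_
      have h1 : s + -i = s - i := by ring
      have h2 : i + (s - i) = s := by ring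
      have h3 : i - (s - i) = 2 * i - s := by ring
      simp only [h1, h2, h3]
      ring
    rw [Finset.sum_congr rfl e1, Finset.sum_comm]
    refine Finset.sum_congr rfl fun s _ => ?_
    rw [hG, Finset.mul_sum]
  -- the quadratic sum
  set q : ℤ → ℂ := fun h => ∑ i ∈ I, ∑ j ∈ I, (a' i * (starRingEnd ℂ) (a' (i + h))) *
    (b' j * (starRingEnd ℂ) (b' (j - h))) * (c (i - j) * (starRingEnd ℂ) (c (i - j + 2 * h))) with hq
  have hQ : ∑ s ∈ K, G s * (starRingEnd ℂ) (G s) = ∑ h ∈ J, q h := by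
    have e1 : ∑ s ∈ K, G s * (starRingEnd ℂ) (G s)
        = ∑ i ∈ I, ∑ i' ∈ I, ∑ s ∈ K, (a' i * b' (s - i) * c (2 * i - s)) *
          (starRingEnd ℂ) (a' i' * b' (s - i') * c (2 * i' - s)) := by
      have e2 : ∀ s ∈ K, G s * (starRingEnd ℂ) (G s)
          = ∑ i ∈ I, ∑ i' ∈ I, (a' i * b' (s - i) * c (2 * i - s)) *
          (starRingEnd ℂ) (a' i' * b' (s - i') * c (2 * i' - s)) := by
        intro s _
        simp only [hG]
        rw [map_sum, Finset.sum_mul_sum]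
      rw [Finset.sum_congr rfl e2, Finset.sum_comm]
      refine Finset.sum_congr rfl fun i _ => ?_
      rw [Finset.sum_comm]
    have e3 : ∀ i ∈ I, ∀ i' ∈ I, ∑ s ∈ K, (a' i * b' (s - i) * c (2 * i - s)) *
          (starRingEnd ℂ) (a' i' * b' (s - i') * c (2 * i' - s))
        = ∑ j ∈ I, (a' i * b' j * c (i - j)) *
          (starRingEnd ℂ) (a' i' * b' (i + j - i') * c (2 * i' - (i + j))) := by
      intro i hi i' _
      have hi' := Finset.mem_Ico.1 hi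
      rw [sum_tr I K (fun j => (a' i * b' j * c (i - j)) *
          (starRingEnd ℂ) (a' i' * b' (i + j - i') * c (2 * i' - (i + j))))
        (fun x hx => by rw [hb'0 x hx]; ring) (-i) (fun x hx => by
          have hx' := Finset.mem_Ico.1 hx
          rw [Finset.mem_Ico]
          constructor <;> omega)]
      refine Finset.sum_congr rfl fun s _ => ?_
      have h1 : s + -i = s - i := by ring
      have h2 : i + (s - i) = s := by ring
      have h3 : i - (s - i) = 2 * i - s := by ring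
      simp only [h1, h2, h3]
    rw [e1, Finset.sum_congr rfl fun i hi => Finset.sum_congr rfl fun i' hi' => e3 i hi i' hi']
    have e4 : ∀ i ∈ I, ∑ i' ∈ I, ∑ j ∈ I, (a' i * b' j * c (i - j)) *
          (starRingEnd ℂ) (a' i' * b' (i + j - i') * c (2 * i' - (i + j)))
        = ∑ h ∈ J, ∑ j ∈ I, (a' i * (starRingEnd ℂ) (a' (i + h))) *
    (b' j * (starRingEnd ℂ) (b' (j - h))) * (c (i - j) * (starRingEnd ℂ) (c (i - j + 2 * h))) := by
      intro i hi
      have hi' := Finset.mem_Ico.1 hi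
      rw [sum_tr I J (fun i' => ∑ j ∈ I, (a' i * b' j * c (i - j)) *
          (starRingEnd ℂ) (a' i' * b' (i + j - i') * c (2 * i' - (i + j))))
        (fun x hx => by
          refine Finset.sum_eq_zero fun j _ => ?_
          rw [ha'0 x hx]
          simp) i (fun x hx => by
          have hx' := Finset.mem_Ico.1 hx
          rw [Finset.mem_Ioo]
          constructor <;> omega)]
      refine Finset.sum_congr rfl fun h _ => Finset.sum_congr rfl fun j _ => ?_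
      have h1 : h + i = i + h := by ring
      have h2 : i + j - (i + h) = j - h := by ring
      have h3 : 2 * (i + h) - (i + j) = i - j + 2 * h := by ring
      simp only [h1, h2, h3, map_mul]
      ring
    rw [Finset.sum_congr rfl e4, Finset.sum_comm]
  -- masses
  have hmassA : ∑ h ∈ J, ∑ i ∈ I, ‖a' i * (starRingEnd ℂ) (a' (i + h))‖ ^ 2 ≤ A ^ 2 := by
    rw [Finset.sum_comm, sq, ← hAa, Finset.sum_mul_sum]
    refine Finset.sum_le_sum fun i hi => ?_
    have hi' := Finset.mem_Ico.1 hi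
    have h1 : ∑ h ∈ J, ‖a' i * (starRingEnd ℂ) (a' (i + h))‖ ^ 2
        = ‖a' i‖ ^ 2 * ∑ h ∈ J, ‖a' (i + h)‖ ^ 2 := by
      rw [Finset.mul_sum]
      refine Finset.sum_congr rfl fun h _ => ?_
      rw [norm_mul, RCLike.norm_conj, mul_pow]
    rw [h1, ← Finset.mul_sum]
    refine mul_le_mul_of_nonneg_left ?_ (by positivity)
    have h2 : ∑ h ∈ J, ‖a' (i + h)‖ ^ 2 = ∑ x ∈ J.image (fun h => i + h), ‖a' x‖ ^ 2 := by
      rw [Finset.sum_image (fun a _ b _ hab => add_left_cancel hab)]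
    rw [h2]
    refine le_trans (le_of_eq ?_) (Finset.sum_le_sum_of_subset_of_nonneg
      (Finset.inter_subset_right (s₁ := J.image (fun h => i + h)) (s₂ := I)) fun _ _ _ => by positivity)
    symm
    refine Finset.sum_subset Finset.inter_subset_left ?_
    intro x hx hxI
    rw [ha'0 x (fun h => hxI (Finset.mem_inter.2 ⟨hx, h⟩))]
    simp
  have hmassB : ∑ h ∈ J, ∑ j ∈ I, ‖b' j * (starRingEnd ℂ) (b' (j - h))‖ ^ 2 ≤ B ^ 2 := by
    rw [Finset.sum_comm, sq, ← hBb, Finset.sum_mul_sum]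
    refine Finset.sum_le_sum fun i hi => ?_
    have hi' := Finset.mem_Ico.1 hi
    have h1 : ∑ h ∈ J, ‖b' i * (starRingEnd ℂ) (b' (i - h))‖ ^ 2
        = ‖b' i‖ ^ 2 * ∑ h ∈ J, ‖b' (i - h)‖ ^ 2 := by
      rw [Finset.mul_sum]
      refine Finset.sum_congr rfl fun h _ => ?_
      rw [norm_mul, RCLike.norm_conj, mul_pow]
    rw [h1, ← Finset.mul_sum]
    refine mul_le_mul_of_nonneg_left ?_ (by positivity)
    have h2 : ∑ h ∈ J, ‖b' (i - h)‖ ^ 2 = ∑ x ∈ J.image (fun h => i - h), ‖b' x‖ ^ 2 := by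
      rw [Finset.sum_image (fun a _ b _ hab => sub_right_injective hab)]
    rw [h2]
    refine le_trans (le_of_eq ?_) (Finset.sum_le_sum_of_subset_of_nonneg
      (Finset.inter_subset_right (s₁ := J.image (fun h => i - h)) (s₂ := I)) fun _ _ _ => by positivity)
    symm
    refine Finset.sum_subset Finset.inter_subset_left ?_
    intro x hx hxI
    rw [hb'0 x (fun h => hxI (Finset.mem_inter.2 ⟨hx, h⟩))]
    simp
  -- bound for one difference
  have hqh : ∀ h ∈ J, h ≠ 0 → ‖q h‖ ≤ T *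
      (Real.sqrt (∑ i ∈ I, ‖a' i * (starRingEnd ℂ) (a' (i + h))‖ ^ 2) *
        Real.sqrt (∑ j ∈ I, ‖b' j * (starRingEnd ℂ) (b' (j - h))‖ ^ 2)) := by
    intro h hh hh0
    exact toeplitz_gm L (fun d => c d * (starRingEnd ℂ) (c (d + 2 * h))) T hT0
      (fun σ => hT h hh hh0 σ) (fun i => a' i * (starRingEnd ℂ) (a' (i + h)))
      (fun j => b' j * (starRingEnd ℂ) (b' (j - h)))
  have hq0 : ‖q 0‖ ≤ A * B := by
    simp only [hq]
    rw [← hAa, ← hBb, Finset.sum_mul_sum]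
    refine (norm_sum_le _ _).trans (Finset.sum_le_sum fun i _ =>
      (norm_sum_le _ _).trans (Finset.sum_le_sum fun j _ => ?_))
    simp only [add_zero, sub_zero, mul_zero]
    rw [norm_mul, norm_mul (c (i - j)), RCLike.norm_conj, norm_mul, norm_mul, norm_mul,
      RCLike.norm_conj, RCLike.norm_conj]
    have h1 : ‖c (i - j)‖ * ‖c (i - j)‖ ≤ 1 := mul_le_one₀ (hc _) (norm_nonneg _) (hc _)
    calc ‖a' i‖ * ‖a' i‖ * (‖b' j‖ * ‖b' j‖) * (‖c (i - j)‖ * ‖c (i - j)‖)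
        ≤ ‖a' i‖ * ‖a' i‖ * (‖b' j‖ * ‖b' j‖) * 1 :=
          mul_le_mul_of_nonneg_left h1 (by positivity)
      _ = _ := by ring
  have hcs : ∑ h ∈ J, Real.sqrt (∑ i ∈ I, ‖a' i * (starRingEnd ℂ) (a' (i + h))‖ ^ 2) *
        Real.sqrt (∑ j ∈ I, ‖b' j * (starRingEnd ℂ) (b' (j - h))‖ ^ 2) ≤ A * B := by
    refine (Real.sum_mul_le_sqrt_mul_sqrt _ _ _).trans ?_
    have h1 : ∀ f : ℤ → ℤ → ℝ, (∀ h i, 0 ≤ f h i) →
        ∑ h ∈ J, Real.sqrt (∑ i ∈ I, f h i) ^ 2 = ∑ h ∈ J, ∑ i ∈ I, f h i := by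
      intro f hf
      refine Finset.sum_congr rfl fun h _ => ?_
      rw [Real.sq_sqrt (Finset.sum_nonneg fun i _ => hf h i)]
    rw [h1 _ (fun _ _ => by positivity), h1 _ (fun _ _ => by positivity)]
    calc _ ≤ Real.sqrt (A ^ 2) * Real.sqrt (B ^ 2) :=
          mul_le_mul (Real.sqrt_le_sqrt hmassA) (Real.sqrt_le_sqrt hmassB) (Real.sqrt_nonneg _)
            (Real.sqrt_nonneg _)
      _ = A * B := by rw [Real.sqrt_sq hA0, Real.sqrt_sq hB0]
  have hqsum : ∑ h ∈ J, ‖q h‖ ≤ (1 + T) * (A * B) := by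
    have h0 : ∑ h ∈ J, ‖q h‖ ≤ ∑ h ∈ J, ((if h = 0 then A * B else 0) + T *
      (Real.sqrt (∑ i ∈ I, ‖a' i * (starRingEnd ℂ) (a' (i + h))‖ ^ 2) *
        Real.sqrt (∑ j ∈ I, ‖b' j * (starRingEnd ℂ) (b' (j - h))‖ ^ 2))) := by
      refine Finset.sum_le_sum fun h hh => ?_
      by_cases h0 : h = 0
      · rw [if_pos h0]
        subst h0
        have : 0 ≤ T * (Real.sqrt (∑ i ∈ I, ‖a' i * (starRingEnd ℂ) (a' (i + 0))‖ ^ 2) *
          Real.sqrt (∑ j ∈ I, ‖b' j * (starRingEnd ℂ) (b' (j - 0))‖ ^ 2)) := by positivity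
        linarith
      · rw [if_neg h0, zero_add]
        exact hqh h hh h0
    refine h0.trans ?_
    rw [Finset.sum_add_distrib, ← Finset.mul_sum]
    have h2 : ∑ h ∈ J, (if h = 0 then A * B else 0) ≤ A * B := by
      rw [Finset.sum_ite_eq']
      split_ifs
      · exact le_rfl
      · positivity
    nlinarith [mul_le_mul_of_nonneg_left hcs hT0]
  -- conclusion
  have hGs : ∑ s ∈ K, ‖G s‖ ^ 2 ≤ (1 + T) * (A * B) := by
    have h1 : ((∑ s ∈ K, ‖G s‖ ^ 2 : ℝ) : ℂ) = ∑ h ∈ J, q h := by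
      rw [← hQ, Complex.ofReal_sum]
      refine Finset.sum_congr rfl fun s _ => ?_
      rw [Complex.mul_conj, Complex.normSq_eq_norm_sq]
    have h2 : ∑ s ∈ K, ‖G s‖ ^ 2 = ‖((∑ s ∈ K, ‖G s‖ ^ 2 : ℝ) : ℂ)‖ := by
      rw [Complex.norm_real, Real.norm_of_nonneg (Finset.sum_nonneg fun _ _ => by positivity)]
    rw [h2, h1]
    exact (norm_sum_le _ _).trans hqsum
  have hSn : ‖∑ s ∈ K, H s * G s‖ ≤ Real.sqrt (2 * L) * Real.sqrt ((1 + T) * (A * B)) := by
    have h1 : ‖∑ s ∈ K, H s * G s‖ ≤ ∑ s ∈ K, 1 * ‖G s‖ := by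
      refine (norm_sum_le _ _).trans (Finset.sum_le_sum fun s _ => ?_)
      rw [norm_mul]
      exact mul_le_mul_of_nonneg_right (hH s) (norm_nonneg _)
    refine h1.trans ((Real.sum_mul_le_sqrt_mul_sqrt _ _ _).trans ?_)
    have h2 : ∑ s ∈ K, (1 : ℝ) ^ 2 = 2 * L := by
      simp only [one_pow, Finset.sum_const, nsmul_eq_mul, mul_one]
      rw [hK, Int.card_Ico]
      have : (2 * (L : ℤ) - 0).toNat = 2 * L := by omega
      rw [this]
      push_cast
      ring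
    rw [h2]
    exact mul_le_mul_of_nonneg_left (Real.sqrt_le_sqrt hGs) (Real.sqrt_nonneg _)
  rw [hS]
  refine hSn.trans ?_
  rw [← Real.sqrt_mul (by positivity)]
  have e1 : 2 * (L : ℝ) * ((1 + T) * (A * B)) = (2 * L * (1 + T)) * (A * B) := by ring
  rw [e1, Real.sqrt_mul (by positivity)]
  refine mul_le_mul_of_nonneg_left ?_ (Real.sqrt_nonneg _)
  rw [Real.sqrt_le_left (by positivity)]
  nlinarith [sq_nonneg (A - B)]

end Pool.Agent.TH920.QI
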