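import Pool.Agent.TH920.QI.Mom
import Pool.Agent.TH920.QI.U3
import Pool.Agent.TH920.QI.Shift

/-! Bad shifts for the kernel `χ(a-b) η(a+b)`. -/

set_option autoImplicit false

open Finset

namespace Pool.Agent.TH920.QI

open Pool.Agent.W27.SD Pool.Agent.W27.BG

variable {p : ℕ} [Fact p.Prime]

/-- twisted sum of `χ(W+d) conj χ(W+d+2h)` -/
noncomputable def tw3 (L : ℕ) [NeZero (2 * L)] (χ : DirichletCharacter ℂ p) (W : ZMod p) (h : ℤ)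
    (σ : ZMod (2 * L)) : ℂ :=
  ∑ d ∈ Finset.Ioo (-(L : ℤ)) L, ps (2 * L) σ d * pd χ h W d

/-- shifts for which some twisted sum is large -/
noncomputable def Bad3 (L : ℕ) [NeZero (2 * L)] (χ : DirichletCharacter ℂ p) (T : ℝ) :
    Finset (ZMod p) := by
  classical
  exact univ.filter fun W => ∃ h ∈ Finset.Ioo (-(L : ℤ)) L, h ≠ 0 ∧
    ∃ σ : ZMod (2 * L), T < ‖tw3 L χ W h σ‖

theorem mem_Bad3 {L : ℕ} [NeZero (2 * L)] {χ : DirichletCharacter ℂ p} {T : ℝ} {W : ZMod p} :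
    W ∈ Bad3 L χ T ↔ ∃ h ∈ Finset.Ioo (-(L : ℤ)) L, h ≠ 0 ∧
      ∃ σ : ZMod (2 * L), T < ‖tw3 L χ W h σ‖ := by
  classical
  unfold Bad3
  rw [Finset.mem_filter]
  exact ⟨fun h => h.2, fun h => ⟨mem_univ _, h⟩⟩

theorem bad3_le (L : ℕ) [NeZero (2 * L)] (χ : DirichletCharacter ℂ p) (T : ℝ) (hT : 0 ≤ T)
    (k : ℕ) :
    ((Bad3 L χ T).card : ℝ) * T ^ (2 * k)
      ≤ ∑ h ∈ (Finset.Ioo (-(L : ℤ)) L).erase 0, ∑ σ : ZMod (2 * L), ∑ W : ZMod p,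
        ‖tw3 L χ W h σ‖ ^ (2 * k) := by
  classical
  have h2 : ((Bad3 L χ T).card : ℝ) * T ^ (2 * k)
      ≤ ∑ W : ZMod p, ∑ h ∈ (Finset.Ioo (-(L : ℤ)) L).erase 0, ∑ σ : ZMod (2 * L),
        ‖tw3 L χ W h σ‖ ^ (2 * k) := by
    rw [← nsmul_eq_mul, ← Finset.sum_const]
    have h3 : ∑ W ∈ Bad3 L χ T, T ^ (2 * k)
        ≤ ∑ W ∈ Bad3 L χ T, ∑ h ∈ (Finset.Ioo (-(L : ℤ)) L).erase 0, ∑ σ : ZMod (2 * L),
          ‖tw3 L χ W h σ‖ ^ (2 * k) := by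
      refine Finset.sum_le_sum fun W hW => ?_
      obtain ⟨h, hh, h0, σ, hσ⟩ := mem_Bad3.1 hW
      refine (pow_le_pow_left₀ hT hσ.le _).trans ?_
      refine (Finset.single_le_sum (f := fun σ => ‖tw3 L χ W h σ‖ ^ (2 * k))
        (fun _ _ => by positivity) (mem_univ σ)).trans ?_
      exact Finset.single_le_sum (f := fun h => ∑ σ : ZMod (2 * L), ‖tw3 L χ W h σ‖ ^ (2 * k))
        (fun _ _ => Finset.sum_nonneg fun _ _ => by positivity) (Finset.mem_erase.2 ⟨h0, hh⟩)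
    refine h3.trans (Finset.sum_le_sum_of_subset_of_nonneg (Finset.subset_univ _) ?_)
    intro _ _ _
    exact Finset.sum_nonneg fun _ _ => Finset.sum_nonneg fun _ _ => by positivity
  refine h2.trans (le_of_eq ?_)
  rw [Finset.sum_comm]
  refine Finset.sum_congr rfl fun h _ => ?_
  rw [Finset.sum_comm]

theorem erase_card (L : ℕ) (hL : 1 ≤ L) :
    (((Finset.Ioo (-(L : ℤ)) L).erase 0).card : ℝ) ≤ 2 * L := by
  have h1 : ((Finset.Ioo (-(L : ℤ)) L).erase 0).card ≤ 2 * L := by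
    refine (Finset.card_erase_le).trans ?_
    rw [Int.card_Ioo]
    omega
  exact_mod_cast h1

theorem bad3_one (L : ℕ) [NeZero (2 * L)] (hL1 : 1 ≤ L) (hL : 6 * L ≤ p)
    (χ : DirichletCharacter ℂ p) (hχ : χ ≠ 1) (T : ℝ) (hT : 0 ≤ T) (k : ℕ) :
    ((Bad3 L χ T).card : ℝ) * T ^ (2 * k)
      ≤ (2 * L : ℝ) * ((2 * L : ℝ) * (((12 * k : ℕ) : ℝ) ^ (2 * k) * (2 * L : ℝ) ^ k * p
        + (4 * k) * (2 * L : ℝ) ^ (2 * k) * Real.sqrt p)) := by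
  classical
  refine (bad3_le L χ T hT k).trans ?_
  have h4 : ∀ h ∈ (Finset.Ioo (-(L : ℤ)) L).erase 0, ∑ σ : ZMod (2 * L), ∑ W : ZMod p,
        ‖tw3 L χ W h σ‖ ^ (2 * k) ≤ (2 * L : ℝ) * (((12 * k : ℕ) : ℝ) ^ (2 * k) * (2 * L : ℝ) ^ k * p
        + (4 * k) * (2 * L : ℝ) ^ (2 * k) * Real.sqrt p) := by
    intro h hh
    rw [Finset.mem_erase, Finset.mem_Ioo] at hh
    have h5 : ∀ σ : ZMod (2 * L), ∑ W : ZMod p, ‖tw3 L χ W h σ‖ ^ (2 * k)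
        ≤ ((12 * k : ℕ) : ℝ) ^ (2 * k) * (2 * L : ℝ) ^ k * p
        + (4 * k) * (2 * L : ℝ) ^ (2 * k) * Real.sqrt p := fun σ =>
      mom3 χ hχ k L hL1 hL h (abs_lt.2 hh.2) hh.1 (fun d => ps (2 * L) σ d)
        (fun d => (ps_norm _ _ _).le)
    refine (Finset.sum_le_sum fun σ _ => h5 σ).trans ?_
    rw [Finset.sum_const, Finset.card_univ, ZMod.card, nsmul_eq_mul]
    push_cast
    exact le_rfl
  refine (Finset.sum_le_card_nsmul _ _ _ h4).trans ?_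
  rw [nsmul_eq_mul]
  exact mul_le_mul_of_nonneg_right (erase_card L hL1) (by positivity)

/-- few bad shifts, with a convenient threshold -/
theorem bad3_small (L : ℕ) [NeZero (2 * L)] (hL : 6 * L ≤ p) (hL1 : 1 ≤ L)
    (k : ℕ) (hk : 1 ≤ k) (hLk : Real.sqrt p ≤ (L : ℝ) ^ k) (χ : DirichletCharacter ℂ p)
    (hχ : χ ≠ 1) :
    ((Bad3 L χ ((L : ℝ) ^ (1 - 1 / (2 * (k : ℝ))))).card : ℝ)
      ≤ (4 * (((12 * k : ℕ) : ℝ) ^ (2 * k) * 2 ^ k + 4 * k * 4 ^ k)) *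
        ((L : ℝ) ^ 3 * Real.sqrt p) := by
  set B : ℝ := (L : ℝ) ^ (1 - 1 / (2 * (k : ℝ))) with hB
  have hLR : (1 : ℝ) ≤ L := by exact_mod_cast hL1
  have hL0 : (0 : ℝ) < L := by linarith
  have hkR : (1 : ℝ) ≤ k := by exact_mod_cast hk
  have hp0 : (0 : ℝ) < p := by exact_mod_cast (Fact.out : p.Prime).pos
  have hB0 : 0 ≤ B := by positivity
  have hs0 : 0 ≤ Real.sqrt p := Real.sqrt_nonneg _
  have hss : Real.sqrt p * Real.sqrt p = p := Real.mul_self_sqrt hp0.le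
  obtain ⟨c1, hc1⟩ : ∃ c1 : ℝ, c1 = ((12 * k : ℕ) : ℝ) ^ (2 * k) := ⟨_, rfl⟩
  have hc10 : 0 ≤ c1 := by rw [hc1]; positivity
  have hBk : B ^ (2 * k) * L = (L : ℝ) ^ (2 * k) := by
    rw [hB, ← Real.rpow_natCast, ← Real.rpow_mul hL0.le]
    have e1 : (1 - 1 / (2 * (k : ℝ))) * ((2 * k : ℕ) : ℝ) = 2 * (k : ℝ) - 1 := by
      push_cast
      field_simp
    rw [e1]
    have e2 : (L : ℝ) ^ (2 * (k : ℝ) - 1) * L = (L : ℝ) ^ (2 * (k : ℝ) - 1 + 1) := by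
      rw [Real.rpow_add_one hL0.ne']
    rw [e2, ← Real.rpow_natCast]
    congr 1
    push_cast
    ring
  have h1 := bad3_one L hL1 hL χ hχ B hB0 k
  rw [← hc1] at h1 ⊢
  have h2 : c1 * (2 * L : ℝ) ^ k * p ≤ (c1 * 2 ^ k) * ((L : ℝ) ^ (2 * k) * Real.sqrt p) := by
    calc c1 * (2 * L : ℝ) ^ k * p
        = (c1 * 2 ^ k) * ((L : ℝ) ^ k * (Real.sqrt p * Real.sqrt p)) := by
          rw [mul_pow, hss]
          ring
      _ = (c1 * 2 ^ k) * ((L : ℝ) ^ k * Real.sqrt p) * Real.sqrt p := by ring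
      _ ≤ (c1 * 2 ^ k) * ((L : ℝ) ^ k * Real.sqrt p) * (L : ℝ) ^ k :=
          mul_le_mul_of_nonneg_left hLk (by positivity)
      _ = _ := by rw [two_mul k, pow_add (L : ℝ)]; ring
  have h3 : (4 * (k : ℝ)) * (2 * L : ℝ) ^ (2 * k) * Real.sqrt p
      = (4 * k * 4 ^ k) * ((L : ℝ) ^ (2 * k) * Real.sqrt p) := by
    rw [mul_pow, pow_mul (2 : ℝ) 2 k]
    norm_num
    ring
  have h4 : ((Bad3 L χ B).card : ℝ) * (L : ℝ) ^ (2 * k)
      ≤ (4 * (c1 * 2 ^ k + 4 * k * 4 ^ k)) * ((L : ℝ) ^ 3 * Real.sqrt p)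
        * (L : ℝ) ^ (2 * k) := by
    rw [← hBk]
    calc ((Bad3 L χ B).card : ℝ) * (B ^ (2 * k) * L)
        = (((Bad3 L χ B).card : ℝ) * B ^ (2 * k)) * L := by ring
      _ ≤ ((2 * L : ℝ) * ((2 * L : ℝ) * (c1 * (2 * L : ℝ) ^ k * p
        + (4 * k) * (2 * L : ℝ) ^ (2 * k) * Real.sqrt p))) * L :=
          mul_le_mul_of_nonneg_right h1 hL0.le
      _ ≤ ((2 * L : ℝ) * ((2 * L : ℝ) * ((c1 * 2 ^ k) * ((L : ℝ) ^ (2 * k) * Real.sqrt p)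
        + (4 * k * 4 ^ k) * ((L : ℝ) ^ (2 * k) * Real.sqrt p)))) * L := by
          rw [h3]
          refine mul_le_mul_of_nonneg_right (mul_le_mul_of_nonneg_left
            (mul_le_mul_of_nonneg_left ?_ (by positivity)) (by positivity)) hL0.le
          linarith
      _ = (4 * (c1 * 2 ^ k + 4 * k * 4 ^ k)) * ((L : ℝ) ^ 3 * Real.sqrt p)
        * (L : ℝ) ^ (2 * k) := by ring
      _ = _ := by rw [hBk]
  exact le_of_mul_le_mul_right h4 (by positivity)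

/-- the kernel `χ(a-b) η(a+b)` is small away from the bad shifts -/
theorem kerP_of (L : ℕ) [NeZero (2 * L)] (χ : DirichletCharacter ℂ p) (T : ℝ) (hT : 0 ≤ T)
    (η : ZMod p → ℂ) (hη : ∀ x, ‖η x‖ ≤ 1) :
    KerP L (Bad3 L χ T) (Real.sqrt (2 * L * (1 + T))) (fun a b => χ (a - b) * η (a + b)) := by
  intro z hz t t' htt F G
  have hgood : ∀ h ∈ Finset.Ioo (-(L : ℤ)) L, h ≠ 0 → ∀ σ : ZMod (2 * L),
      ‖∑ d ∈ Finset.Ioo (-(L : ℤ)) L, (fun d : ℤ => χ ((t - t') * z⁻¹ + (d : ZMod p))) d *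
        (starRingEnd ℂ) ((fun d : ℤ => χ ((t - t') * z⁻¹ + (d : ZMod p))) (d + 2 * h)) *
        ps (2 * L) σ d‖ ≤ T := by
    intro h hh h0 σ
    by_contra hcon
    refine htt (mem_Bad3.2 ⟨h, hh, h0, σ, ?_⟩)
    rw [not_le] at hcon
    refine lt_of_lt_of_eq hcon ?_
    congr 1
    unfold tw3 pd
    refine Finset.sum_congr rfl fun d _ => ?_
    simp only
    ring
  have h1 := u3_form L (fun d : ℤ => χ ((t - t') * z⁻¹ + (d : ZMod p)))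
    (fun s : ℤ => χ z * η (t + t' + (s : ZMod p) * z))
    (fun d => DirichletCharacter.norm_le_one χ _) (fun s => by
      rw [norm_mul]
      exact mul_le_one₀ (DirichletCharacter.norm_le_one χ _) (norm_nonneg _) (hη _)) T hT hgood F G
  refine le_trans (le_of_eq ?_) h1
  congr 1
  refine Finset.sum_congr rfl fun i _ => Finset.sum_congr rfl fun j _ => ?_
  have e1 : χ (t + (i : ZMod p) * z - (t' + (j : ZMod p) * z))
      = χ z * χ ((t - t') * z⁻¹ + ((i - j : ℤ) : ZMod p)) := by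
    rw [← map_mul]
    congr 1
    push_cast
    field_simp
    ring
  have e2 : t + (i : ZMod p) * z + (t' + (j : ZMod p) * z) = t + t' + ((i + j : ℤ) : ZMod p) * z := by
    push_cast
    ring
  simp only
  rw [e1, e2]
  ring

theorem kerP_mono {L : ℕ} {X : Finset (ZMod p)} {B B' : ℝ} {Kr : ZMod p → ZMod p → ℂ}
    (h : KerP L X B Kr) (hB : B ≤ B') : KerP L X B' Kr := by
  intro z hz t t' htt F G
  refine (h z hz t t' htt F G).trans (mul_le_mul_of_nonneg_right hB ?_)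
  have h1 : 0 ≤ ∑ i ∈ Finset.Ico 0 (L : ℤ), ‖F i‖ ^ 2 := Finset.sum_nonneg fun _ _ => by positivity
  have h2 : 0 ≤ ∑ i ∈ Finset.Ico 0 (L : ℤ), ‖G i‖ ^ 2 := Finset.sum_nonneg fun _ _ => by positivity
  positivity

/-- the convenient form of the size -/
theorem sqrt_size (L k : ℕ) (hL1 : 1 ≤ L) (hk : 1 ≤ k) (hL : (4 : ℝ) ≤ (L : ℝ) ^ (1 / (4 * (k : ℝ)))) :
    Real.sqrt (2 * L * (1 + (L : ℝ) ^ (1 - 1 / (2 * (k : ℝ)))))
      ≤ (L : ℝ) ^ (1 - 1 / (2 * ((4 * k : ℕ) : ℝ))) := by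
  have hLR : (1 : ℝ) ≤ L := by exact_mod_cast hL1
  have hL0 : (0 : ℝ) < L := by linarith
  have hkR : (1 : ℝ) ≤ k := by exact_mod_cast hk
  have hT1 : (1 : ℝ) ≤ (L : ℝ) ^ (1 - 1 / (2 * (k : ℝ))) := by
    apply Real.one_le_rpow hLR
    rw [sub_nonneg, div_le_one (by positivity)]
    linarith
  rw [Real.sqrt_le_left (by positivity)]
  have e1 : ((L : ℝ) ^ (1 - 1 / (2 * ((4 * k : ℕ) : ℝ)))) ^ 2
      = (L : ℝ) ^ (1 / (4 * (k : ℝ))) * ((L : ℝ) * (L : ℝ) ^ (1 - 1 / (2 * (k : ℝ)))) := by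
    rw [← Real.rpow_natCast, ← Real.rpow_mul hL0.le]
    have e2 : (L : ℝ) * (L : ℝ) ^ (1 - 1 / (2 * (k : ℝ))) = (L : ℝ) ^ (1 - 1 / (2 * (k : ℝ)) + 1) := by
      rw [Real.rpow_add_one hL0.ne', mul_comm]
    rw [e2, ← Real.rpow_add hL0]
    congr 1
    push_cast
    field_simp
    ring
  rw [e1]
  have h2 : (0 : ℝ) ≤ (L : ℝ) * (L : ℝ) ^ (1 - 1 / (2 * (k : ℝ))) := by positivity
  have h3 : (L : ℝ) ≤ (L : ℝ) * (L : ℝ) ^ (1 - 1 / (2 * (k : ℝ))) := by nlinarith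
  nlinarith [mul_le_mul_of_nonneg_right hL h2]

end Pool.Agent.TH920.QI
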