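import Mathlib

/-! Tuples in which every entry is close to another entry. -/

set_option autoImplicit false

open Finset

namespace Pool.Agent.TH920.QI

/-- a graph without isolated vertices has a dominating set of at most half of the vertices -/
theorem dom_half {ι : Type*} [Fintype ι] [DecidableEq ι] (r : ι → ι → Prop)
    (hrefl : ∀ l, r l l) (hsymm : ∀ l m, r l m → r m l) (hne : ∀ l, ∃ m, m ≠ l ∧ r l m) :
    ∃ R : Finset ι, 2 * R.card ≤ Fintype.card ι ∧ ∀ l, ∃ m ∈ R, r l m := by
  classical
  set S := (univ : Finset (Finset ι)).filter (fun R => ∀ l, ∃ m ∈ R, r l m) with hS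
  have hSne : S.Nonempty := by
    refine ⟨univ, ?_⟩
    rw [hS, Finset.mem_filter]
    exact ⟨mem_univ _, fun l => ⟨l, mem_univ _, hrefl l⟩⟩
  obtain ⟨R, hRS, hmin⟩ := Finset.exists_min_image S Finset.card hSne
  have hR : ∀ l, ∃ m ∈ R, r l m := (Finset.mem_filter.1 hRS).2
  have hc : ∀ l, ∃ m ∈ Rᶜ, r l m := by
    intro l
    by_cases hl : l ∈ R
    · by_contra hcon
      push Not at hcon
      have hnb : ∀ m, r l m → m ∈ R := by
        intro m hm
        by_contra h
        exact hcon m (Finset.mem_compl.2 h) hm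
      have hdom : R.erase l ∈ S := by
        rw [hS, Finset.mem_filter]
        refine ⟨mem_univ _, fun x => ?_⟩
        obtain ⟨m, hm, hxm⟩ := hR x
        by_cases hml : m = l
        · subst hml
          by_cases hx : x = m
          · subst hx
            obtain ⟨m', hm', hr⟩ := hne x
            exact ⟨m', Finset.mem_erase.2 ⟨hm', hnb m' hr⟩, hr⟩
          · exact ⟨x, Finset.mem_erase.2 ⟨hx, hnb x (hsymm _ _ hxm)⟩, hrefl x⟩
        · exact ⟨m, Finset.mem_erase.2 ⟨hml, hm⟩, hxm⟩
      have h1 := hmin _ hdom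
      have h2 := Finset.card_erase_lt_of_mem hl
      omega
    · exact ⟨l, Finset.mem_compl.2 hl, hrefl l⟩
  have hcS : Rᶜ ∈ S := by
    rw [hS, Finset.mem_filter]
    exact ⟨mem_univ _, hc⟩
  have h1 := hmin _ hcS
  rw [Finset.card_compl] at h1
  have h2 : R.card ≤ Fintype.card ι := Finset.card_le_univ R
  exact ⟨R, by omega, hR⟩

/-- number of tuples in which every entry differs from another one by an element of `E` -/
theorem count_close (n : ℕ) (V E : Finset ℤ) (hV : V.Nonempty) (h0 : (0 : ℤ) ∈ E)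
    (hneg : ∀ e ∈ E, -e ∈ E) :
    (((Fintype.piFinset (fun _ : Fin n => V)).filter
      (fun D => ∀ l, ∃ m, m ≠ l ∧ D l - D m ∈ E)).card) ≤
      (2 * n * E.card) ^ n * V.card ^ (n / 2) := by
  classical
  set P := Fintype.piFinset (fun _ : Fin n => V) with hP
  set Rs := (univ : Finset (Finset (Fin n))).filter (fun R => 2 * R.card ≤ n) with hRs
  set Es := Fintype.piFinset (fun _ : Fin n => E) with hEs
  set cls : Finset (Fin n) → (Fin n → Fin n) → (Fin n → ℤ) → Finset (Fin n → ℤ) :=
    fun R φ ε => P.filter (fun D => (∀ l, φ l ∈ R) ∧ ∀ l, D l = D (φ l) + ε l) with hcls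
  have hsub : P.filter (fun D => ∀ l, ∃ m, m ≠ l ∧ D l - D m ∈ E) ⊆
      Rs.biUnion (fun R => (univ : Finset (Fin n → Fin n)).biUnion
        (fun φ => Es.biUnion (fun ε => cls R φ ε))) := by
    intro D hD
    rw [Finset.mem_filter] at hD
    obtain ⟨R, hR, hdom⟩ := dom_half (fun l m => D l - D m ∈ E) (fun l => by simpa using h0)
      (fun l m h => by
        have := hneg _ h
        rwa [neg_sub] at this) hD.2
    rw [Fintype.card_fin] at hR
    choose φ hφR hφ using hdom
    rw [Finset.mem_biUnion]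
    refine ⟨R, Finset.mem_filter.2 ⟨mem_univ _, hR⟩, ?_⟩
    rw [Finset.mem_biUnion]
    refine ⟨φ, mem_univ _, ?_⟩
    rw [Finset.mem_biUnion]
    refine ⟨fun l => D l - D (φ l), Fintype.mem_piFinset.2 fun l => hφ l, ?_⟩
    rw [hcls]
    simp only [Finset.mem_filter]
    exact ⟨hD.1, hφR, fun l => by ring⟩
  have hclsc : ∀ R ∈ Rs, ∀ φ ε, (cls R φ ε).card ≤ V.card ^ (n / 2) := by
    intro R hR φ ε
    have hR2 := (Finset.mem_filter.1 hR).2
    have h1 : (cls R φ ε).card ≤ (Fintype.piFinset (fun _ : R => V)).card := by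
      refine Finset.card_le_card_of_injOn (fun D => fun r : R => D r) ?_ ?_
      · intro D hD
        rw [Finset.mem_coe] at hD ⊢
        have hD' := (Finset.mem_filter.1 hD).1
        rw [Fintype.mem_piFinset] at hD' ⊢
        exact fun r => hD' r
      · intro D hD D' hD' hDD
        rw [Finset.mem_coe] at hD hD'
        obtain ⟨_, hφR, hφ⟩ := Finset.mem_filter.1 hD
        obtain ⟨_, _, hφ'⟩ := Finset.mem_filter.1 hD'
        funext l
        rw [hφ l, hφ' l]
        have h2 := congrFun hDD ⟨φ l, hφR l⟩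
        simp only at h2
        rw [h2]
    refine h1.trans ?_
    rw [Fintype.card_piFinset]
    simp only [Finset.prod_const, Finset.card_univ, Fintype.card_coe]
    refine Nat.pow_le_pow_right (Finset.card_pos.2 hV) ?_
    omega
  refine (Finset.card_le_card hsub).trans ?_
  refine Finset.card_biUnion_le.trans ?_
  have h3 : ∀ R ∈ Rs, ((univ : Finset (Fin n → Fin n)).biUnion
        (fun φ => Es.biUnion (fun ε => cls R φ ε))).card ≤
        n ^ n * (E.card ^ n * V.card ^ (n / 2)) := by
    intro R hR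
    refine Finset.card_biUnion_le.trans ?_
    have h4 : ∀ φ ∈ (univ : Finset (Fin n → Fin n)), (Es.biUnion (fun ε => cls R φ ε)).card ≤
        E.card ^ n * V.card ^ (n / 2) := by
      intro φ _
      refine Finset.card_biUnion_le.trans ?_
      refine (Finset.sum_le_card_nsmul _ _ _ (fun ε _ => hclsc R hR φ ε)).trans ?_
      rw [smul_eq_mul, hEs, Fintype.card_piFinset]
      simp
    refine (Finset.sum_le_card_nsmul _ _ _ h4).trans ?_
    rw [smul_eq_mul, Finset.card_univ, Fintype.card_fun, Fintype.card_fin]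
  refine (Finset.sum_le_card_nsmul _ _ _ h3).trans ?_
  rw [smul_eq_mul]
  have h5 : Rs.card ≤ 2 ^ n := by
    refine (Finset.card_filter_le _ _).trans ?_
    rw [Finset.card_univ, Fintype.card_finset, Fintype.card_fin]
  calc Rs.card * (n ^ n * (E.card ^ n * V.card ^ (n / 2)))
      ≤ 2 ^ n * (n ^ n * (E.card ^ n * V.card ^ (n / 2))) := Nat.mul_le_mul_right _ h5
    _ = _ := by rw [mul_pow, mul_pow]; ring

end Pool.Agent.TH920.QI
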