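import Pool.Agent.TH920.QI.Numeric
import Pool.Agent.W27.BG.GapBound

/-! Power saving for a general kernel on translates of a progression
(after `Pool.Agent.W27.BG.GapBound`). -/

set_option autoImplicit false

open Finset

namespace Pool.Agent.TH920.QI

open Pool.Agent.W27.SD Pool.Agent.W27.BG

/-- power saving on translates of one progression of size at least `p ^ (δ + ε)`, for kernels
with at most `p ^ (2 δ)` bad shifts -/
theorem gap_boundK (D : ℕ) (hD1 : 1 ≤ D) (δ ε : ℝ) (hε : 0 < ε) (hε' : ε ≤ 1 / 8) :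
    ∃ κ : ℝ, 0 < κ ∧ κ ≤ ε / 32 ∧ κ * (D + 1) * D ≤ ε ∧ ∀ k : ℕ, 1 ≤ k → ∃ η : ℝ, 0 < η ∧
      ∃ P : ℕ, ∀ (p : ℕ) [Fact p.Prime], P ≤ p →
      ∀ (X : Finset (ZMod p)) (Kr : ZMod p → ZMod p → ℂ) (L : ℕ) [NeZero (2 * L)],
      L = ⌊(p : ℝ) ^ κ⌋₊ → (X.card : ℝ) ≤ (p : ℝ) ^ (2 * δ) → (∀ a b, ‖Kr a b‖ ≤ 1) →
      KerP L X ((L : ℝ) ^ (1 - 1 / (2 * (k : ℝ)))) Kr →
      ∀ (ι : Type) [Fintype ι] [DecidableEq ι] [Nonempty ι], Fintype.card ι ≤ D →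
      ∀ (v : ι → ZMod p) (N : ι → ℕ), (∀ i, (p : ℝ) ^ (κ * (D + 1)) ≤ N i) →
        (p : ℝ) ^ (δ + ε) ≤ ∏ i, (N i : ℝ) → ∏ i, (N i : ℝ) ≤ (p : ℝ) ^ (1 / 2 - ε) →
        (∀ y : ι → ℤ, (∀ i, |y i| ≤ N i) → lin v y = 0 → y = 0) →
        ∀ (c₁ c₂ : ZMod p) (A₁ A₂ : Finset (ZMod p)) (f g : ZMod p → ℂ),
          (∀ a ∈ A₁, ∃ x : ι → ℤ, (∀ i, |x i| ≤ N i) ∧ a = c₁ + lin v x) →
          (∀ a ∈ A₂, ∃ x : ι → ℤ, (∀ i, |x i| ≤ N i) ∧ a = c₂ + lin v x) →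
          ‖∑ a ∈ A₁, ∑ b ∈ A₂, f a * g b * Kr a b‖
            ≤ (p : ℝ) ^ (-η) * (∏ i, (N i : ℝ))
              * ((∑ a ∈ A₁, ‖f a‖ ^ 2 + ∑ b ∈ A₂, ‖g b‖ ^ 2) / 2) := by
  classical
  have hDR : (1 : ℝ) ≤ D := by exact_mod_cast hD1
  obtain ⟨κ, hκdef⟩ : ∃ κ : ℝ, κ = ε / (8 * ((D : ℝ) + 1) ^ 2) := ⟨_, rfl⟩
  have hκ0 : 0 < κ := by rw [hκdef]; positivity
  have hκε : κ * (8 * ((D : ℝ) + 1) ^ 2) = ε := by rw [hκdef]; field_simp
  have hκle : κ ≤ ε / 32 := by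
    have h1 : (32 : ℝ) ≤ 8 * ((D : ℝ) + 1) ^ 2 := by nlinarith
    have h2 : κ * 32 ≤ κ * (8 * ((D : ℝ) + 1) ^ 2) := mul_le_mul_of_nonneg_left h1 hκ0.le
    linarith
  refine ⟨κ, hκ0, hκle, by nlinarith, ?_⟩
  intro k hk1
  have hkR : (1 : ℝ) ≤ k := by exact_mod_cast hk1
  obtain ⟨C2, hC2⟩ : ∃ C2 : ℝ, C2 = 2 ^ D * (51 * D) ^ (2 * D) := ⟨_, rfl⟩
  have hC20 : 0 ≤ C2 := by rw [hC2]; positivity
  obtain ⟨P1, hP1⟩ := large_rpow κ (48 * D + 1) hκ0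
  obtain ⟨P3, hP3⟩ := large_rpow (2 * ε) ((2 * D).factorial * 64 ^ D) (by positivity)
  obtain ⟨P4, hP4⟩ := large_rpow (κ / 2) 2 (by positivity)
  obtain ⟨P5, hP5⟩ := large_rpow (κ / (8 * k)) (5 ^ D + C2 + 2 ^ D) (by positivity)
  refine ⟨κ / (8 * k), by positivity, P1 + P3 + P4 + P5, ?_⟩
  intro p _ hp X Kr L _ hLdef hbad hK1 hK ι _ _ _ hcard v N hN hlow hup hprop c₁ c₂ A₁ A₂ f g hA₁ hA₂
  have hP1' := hP1 p (by omega)
  have hP3' := hP3 p (by omega)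
  have hP4' := hP4 p (by omega)
  have hP5' := hP5 p (by omega)
  have hpn : 2 ≤ p := (Fact.out : p.Prime).two_le
  have hp1 : (1 : ℝ) ≤ p := by exact_mod_cast (by omega : 1 ≤ p)
  have hp0 : (0 : ℝ) < p := by linarith
  have hLle : (L : ℝ) ≤ (p : ℝ) ^ κ := by rw [hLdef]; exact Nat.floor_le (by positivity)
  have hLlt : (p : ℝ) ^ κ < L + 1 := by rw [hLdef]; exact Nat.lt_floor_add_one _
  have hL48 : 48 * D ≤ L := by
    have h1 : ((48 * D : ℕ) : ℝ) < L := by push_cast; linarith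
    exact_mod_cast h1.le
  have hL1 : 1 ≤ L := by omega
  have hLR : (1 : ℝ) ≤ L := by exact_mod_cast hL1
  have hL0 : (0 : ℝ) < L := by linarith
  have hLhalf : (p : ℝ) ^ κ ≤ 2 * L := by linarith
  have hNL : ∀ i, L ^ (D + 1) ≤ N i := by
    intro i
    have h1 : (L : ℝ) ^ (D + 1) ≤ N i := by
      calc (L : ℝ) ^ (D + 1) ≤ ((p : ℝ) ^ κ) ^ (D + 1) := pow_le_pow_left₀ hL0.le hLle _
        _ = (p : ℝ) ^ (κ * (D + 1)) := by
            rw [← Real.rpow_natCast, ← Real.rpow_mul hp0.le]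
            push_cast
            rfl
        _ ≤ N i := hN i
    exact_mod_cast h1
  have hN1 : ∀ i, (1 : ℝ) ≤ N i := fun i => by
    have h1 := hNL i
    have h2 : 1 ≤ L ^ (D + 1) := Nat.one_le_pow _ _ (by omega)
    exact_mod_cast h2.trans h1
  have hNpos : (0 : ℝ) < ∏ i, (N i : ℝ) := Finset.prod_pos fun i _ => by
    have := hN1 i
    linarith
  set Pn := ∏ i, (N i : ℝ) with hPn
  have hS : (2 * Fintype.card ι).factorial * (∏ i, (2 * (4 * N i))) ^ 2 < p := by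
    have h1 : (((2 * Fintype.card ι).factorial * (∏ i, (2 * (4 * N i))) ^ 2 : ℕ) : ℝ) < p := by
      push_cast
      have e1 : ∏ i, (2 * (4 * (N i : ℝ))) = 8 ^ (Fintype.card ι) * Pn := by
        have : ∀ i, 2 * (4 * (N i : ℝ)) = 8 * N i := fun i => by ring
        simp only [this]
        rw [Finset.prod_mul_distrib, Finset.prod_const, Finset.card_univ]
      rw [e1]
      have h2 : ((2 * Fintype.card ι).factorial : ℝ) ≤ (2 * D).factorial := by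
        exact_mod_cast Nat.factorial_le (Nat.mul_le_mul_left 2 hcard)
      have h3 : ((8 : ℝ) ^ (Fintype.card ι) * Pn) ^ 2 ≤ 64 ^ D * (p : ℝ) ^ (1 - 2 * ε) := by
        rw [mul_pow, ← pow_mul, mul_comm _ 2, pow_mul]
        norm_num
        refine mul_le_mul (pow_le_pow_right₀ (by norm_num) hcard) ?_ (by positivity) (by positivity)
        calc Pn ^ 2 ≤ ((p : ℝ) ^ (1 / 2 - ε)) ^ 2 := pow_le_pow_left₀ hNpos.le hup 2
          _ = (p : ℝ) ^ (1 - 2 * ε) := by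
              rw [← Real.rpow_natCast, ← Real.rpow_mul hp0.le]
              congr 1
              push_cast
              ring
      calc ((2 * Fintype.card ι).factorial : ℝ) * ((8 : ℝ) ^ (Fintype.card ι) * Pn) ^ 2
          ≤ (2 * D).factorial * (64 ^ D * (p : ℝ) ^ (1 - 2 * ε)) :=
            mul_le_mul h2 h3 (by positivity) (by positivity)
        _ = ((2 * D).factorial * 64 ^ D) * (p : ℝ) ^ (1 - 2 * ε) := by ring
        _ < (p : ℝ) ^ (2 * ε) * (p : ℝ) ^ (1 - 2 * ε) :=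
            mul_lt_mul_of_pos_right hP3' (by positivity)
        _ = p := by
            rw [← Real.rpow_add hp0]
            norm_num
    exact_mod_cast h1
  have h1 := gap_numericK D hcard v N L k hL48 hNL hS hprop X Kr hK1 hK c₁ c₂ A₁ A₂ f g hA₁ hA₂
  refine h1.trans (mul_le_mul_of_nonneg_right ?_ ?_)
  swap
  · have h1 : 0 ≤ ∑ a ∈ A₁, ‖f a‖ ^ 2 := Finset.sum_nonneg fun _ _ => by positivity
    have h2 : 0 ≤ ∑ b ∈ A₂, ‖g b‖ ^ 2 := Finset.sum_nonneg fun _ _ => by positivity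
    positivity
  -- comparison
  have hLbig : (p : ℝ) ^ (κ / 2) ≤ L := by
    have e1 : (p : ℝ) ^ κ = (p : ℝ) ^ (κ / 2) * (p : ℝ) ^ (κ / 2) := by
      rw [← Real.rpow_add hp0]; congr 1; ring
    rw [e1] at hLhalf
    nlinarith [Real.rpow_pos_of_pos hp0 (κ / 2)]
  set W := (p : ℝ) ^ (-(κ / (4 * k))) with hW
  have hW0 : 0 < W := by positivity
  have t1 : (L : ℝ) ^ (-(1 / (2 * (k : ℝ)))) ≤ W := by
    have e1 : W = ((p : ℝ) ^ (κ / 2)) ^ (-(1 / (2 * (k : ℝ)))) := by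
      rw [hW, ← Real.rpow_mul hp0.le]
      congr 1
      field_simp
      ring
    rw [e1]
    apply Real.rpow_le_rpow_of_nonpos (by positivity) hLbig
    have : 0 < 1 / (2 * (k : ℝ)) := by positivity
    linarith
  have hkk : κ / (4 * k) ≤ κ / 2 := by
    apply div_le_div_of_nonneg_left hκ0.le (by norm_num)
    linarith
  have t2 : 1 / (L : ℝ) ≤ W := by
    calc 1 / (L : ℝ) ≤ 1 / (p : ℝ) ^ (κ / 2) :=
          one_div_le_one_div_of_le (by positivity) hLbig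
      _ = (p : ℝ) ^ (-(κ / 2)) := by rw [Real.rpow_neg hp0.le, one_div]
      _ ≤ W := Real.rpow_le_rpow_of_exponent_le hp1 (by linarith)
  set bc : ℝ := (X.card : ℝ) with hbc
  have t3 : ((L : ℝ) ^ (4 * (D + 1) ^ 2) * bc) / Pn ≤ W * Pn := by
    rw [div_le_iff₀ hNpos]
    have h2 : (L : ℝ) ^ (4 * (D + 1) ^ 2) ≤ (p : ℝ) ^ (ε / 2) := by
      calc (L : ℝ) ^ (4 * (D + 1) ^ 2) ≤ ((p : ℝ) ^ κ) ^ (4 * (D + 1) ^ 2) :=
            pow_le_pow_left₀ hL0.le hLle _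
        _ = (p : ℝ) ^ (ε / 2) := by
            rw [← Real.rpow_natCast, ← Real.rpow_mul hp0.le]
            congr 1
            rw [← hκε]
            push_cast
            ring
    calc (L : ℝ) ^ (4 * (D + 1) ^ 2) * bc
        ≤ (p : ℝ) ^ (ε / 2) * (p : ℝ) ^ (2 * δ) :=
          mul_le_mul h2 hbad (by positivity) (by positivity)
      _ = (p : ℝ) ^ (-(3 / 2 * ε)) * ((p : ℝ) ^ (δ + ε) * (p : ℝ) ^ (δ + ε)) := by
          rw [← Real.rpow_add hp0, ← Real.rpow_add hp0, ← Real.rpow_add hp0]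
          congr 1
          ring
      _ ≤ W * (Pn * Pn) := by
          refine mul_le_mul ?_ (mul_le_mul hlow hlow (by positivity) hNpos.le) (by positivity)
            hW0.le
          apply Real.rpow_le_rpow_of_exponent_le hp1
          linarith
      _ = W * Pn * Pn := by ring
  have hfin : (L : ℝ) ^ (-(1 / (2 * (k : ℝ)))) * 5 ^ D * Pn + C2 * (1 / L) * Pn
      + 2 ^ D * ((L : ℝ) ^ (4 * (D + 1) ^ 2) * bc) / Pn ≤ (5 ^ D + C2 + 2 ^ D) * (W * Pn) := by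
    have a1 : (L : ℝ) ^ (-(1 / (2 * (k : ℝ)))) * 5 ^ D * Pn ≤ 5 ^ D * (W * Pn) := by
      calc (L : ℝ) ^ (-(1 / (2 * (k : ℝ)))) * 5 ^ D * Pn
          = 5 ^ D * ((L : ℝ) ^ (-(1 / (2 * (k : ℝ)))) * Pn) := by ring
        _ ≤ 5 ^ D * (W * Pn) := mul_le_mul_of_nonneg_left
            (mul_le_mul_of_nonneg_right t1 hNpos.le) (by positivity)
    have a2 : C2 * (1 / L) * Pn ≤ C2 * (W * Pn) := by
      calc C2 * (1 / L) * Pn = C2 * ((1 / L) * Pn) := by ring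
        _ ≤ C2 * (W * Pn) := mul_le_mul_of_nonneg_left
            (mul_le_mul_of_nonneg_right t2 hNpos.le) hC20
    have a3 : 2 ^ D * ((L : ℝ) ^ (4 * (D + 1) ^ 2) * bc) / Pn ≤ 2 ^ D * (W * Pn) := by
      rw [mul_div_assoc]
      exact mul_le_mul_of_nonneg_left t3 (by positivity)
    linarith
  rw [← hC2]
  refine hfin.trans ?_
  have h8 : (p : ℝ) ^ (-(κ / (8 * k))) = (p : ℝ) ^ (κ / (8 * k)) * W := by
    rw [hW, ← Real.rpow_add hp0]
    congr 1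
    field_simp
    ring
  rw [h8, mul_assoc]
  exact mul_le_mul_of_nonneg_right hP5'.le (by positivity)

end Pool.Agent.TH920.QI
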