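import Pool.Agent.TH920.QI.Sets

/-! Difference sums over images of a set under `(α q + β) / (γ q + ε)`, `q(x) = u x² + v x`. -/

set_option autoImplicit false

open Finset

namespace Pool.Agent.TH920.QI

variable {p : ℕ} [Fact p.Prime]

/-- the quadratic polynomial -/
theorem q_sub (u v a b : ZMod p) :
    (u * a ^ 2 + v * a) - (u * b ^ 2 + v * b) = (a - b) * (u * (a + b) + v) := by ring

theorem moebius_sub {x y α β γ ε : ZMod p} (h1 : γ * x + ε ≠ 0) (h2 : γ * y + ε ≠ 0) :
    (α * x + β) / (γ * x + ε) - (α * y + β) / (γ * y + ε) =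
      (α * ε - β * γ) * (x - y) * ((γ * x + ε)⁻¹ * (γ * y + ε)⁻¹) := by
  rw [div_sub_div _ _ h1 h2, div_eq_mul_inv, mul_inv]
  ring

/-- from forms with kernel `χ(a-b) η(a+b)` to difference sums over the image -/
theorem image_sum (χ : DirichletCharacter ℂ p) (A A' : Finset (ZMod p)) (hA' : A' ⊆ A) (M : ℝ)
    (hM0 : 0 ≤ M)
    (hM : ∀ η : ZMod p → ℂ, (∀ x, ‖η x‖ ≤ 1) →
        ∀ f g : ZMod p → ℂ, ‖∑ a ∈ A, ∑ b ∈ A, f a * g b * (χ (a - b) * η (a + b))‖
          ≤ M * (Real.sqrt (∑ a ∈ A, ‖f a‖ ^ 2) * Real.sqrt (∑ b ∈ A, ‖g b‖ ^ 2)))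
    (u v α β γ ε : ZMod p) (huv : u ≠ 0 ∨ v ≠ 0) (hdet : α * ε - β * γ ≠ 0)
    (hden : ∀ a ∈ A', γ * (u * a ^ 2 + v * a) + ε ≠ 0) (C : Finset (ZMod p))
    (hC : C = A'.image fun a => (α * (u * a ^ 2 + v * a) + β) / (γ * (u * a ^ 2 + v * a) + ε)) :
    A'.card ≤ 2 * C.card ∧ ‖∑ x ∈ C, ∑ y ∈ C, χ (x - y)‖ ≤ M * C.card := by
  classical
  set φ : ZMod p → ZMod p :=
    fun a => (α * (u * a ^ 2 + v * a) + β) / (γ * (u * a ^ 2 + v * a) + ε) with hφ
  have hsub : ∀ a ∈ A', ∀ b ∈ A', φ a - φ b = (α * ε - β * γ) * ((a - b) * (u * (a + b) + v)) *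
      ((γ * (u * a ^ 2 + v * a) + ε)⁻¹ * (γ * (u * b ^ 2 + v * b) + ε)⁻¹) := by
    intro a ha b hb
    have h1 := hden a ha
    have h2 := hden b hb
    simp only [hφ]
    rw [← q_sub]
    exact moebius_sub h1 h2
  -- the fibres
  have hcard : A'.card ≤ 2 * C.card := by
    rw [hC]
    refine Finset.card_le_mul_card_image A' 2 ?_
    intro y hy
    rw [Finset.mem_image] at hy
    obtain ⟨a, ha, hay⟩ := hy
    have hss : A'.filter (fun x => φ x = y) ⊆ {a, -v / u - a} := by
      intro b hb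
      rw [Finset.mem_filter] at hb
      rw [Finset.mem_insert, Finset.mem_singleton]
      have h1 := hsub b hb.1 a ha
      have h2 : φ a = y := hay
      rw [hb.2, h2, sub_self] at h1
      have h3 : (b - a) * (u * (b + a) + v) = 0 := by
        have h4 := mul_eq_zero.1 h1.symm
        rcases h4 with h4 | h4
        · rcases mul_eq_zero.1 h4 with h5 | h5
          · exact absurd h5 hdet
          · exact h5
        · exfalso
          rcases mul_eq_zero.1 h4 with h5 | h5
          · exact inv_ne_zero (hden b hb.1) h5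
          · exact inv_ne_zero (hden a ha) h5
      rcases mul_eq_zero.1 h3 with h4 | h4
      · left; linear_combination h4
      · right
        by_cases hu : u = 0
        · exfalso
          rw [hu, zero_mul, zero_add] at h4
          rcases huv with h5 | h5
          · exact h5 hu
          · exact h5 h4
        · field_simp
          linear_combination h4
    exact (Finset.card_le_card hss).trans Finset.card_le_two
  refine ⟨hcard, ?_⟩
  -- representatives
  have hrep : ∀ y : ZMod p, ∃ a : ZMod p, y ∈ C → a ∈ A' ∧ φ a = y := by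
    intro y
    by_cases hy : y ∈ C
    · rw [hC, Finset.mem_image] at hy
      obtain ⟨a, ha, hay⟩ := hy
      exact ⟨a, fun _ => ⟨ha, hay⟩⟩
    · exact ⟨0, fun h => absurd h hy⟩
  choose ρ hρ using hrep
  set S := C.image ρ with hS
  have hρinj : Set.InjOn ρ (C : Set (ZMod p)) := by
    intro x hx y hy hxy
    rw [← (hρ x hx).2, ← (hρ y hy).2, hxy]
  have hScard : S.card = C.card := Finset.card_image_of_injOn hρinj
  have hSA' : S ⊆ A' := by
    intro a ha
    rw [hS, Finset.mem_image] at ha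
    obtain ⟨y, hy, rfl⟩ := ha
    exact (hρ y hy).1
  have hSA : S ⊆ A := hSA'.trans hA'
  have hsum : ∑ x ∈ C, ∑ y ∈ C, χ (x - y) = ∑ a ∈ S, ∑ b ∈ S, χ (φ a - φ b) := by
    rw [hS, Finset.sum_image (fun x hx y hy h => hρinj hx hy h)]
    refine Finset.sum_congr rfl fun x hx => ?_
    rw [Finset.sum_image (fun x hx y hy h => hρinj hx hy h)]
    refine Finset.sum_congr rfl fun y hy => ?_
    rw [(hρ x hx).2, (hρ y hy).2]
  set f : ZMod p → ℂ := fun a => if a ∈ S then χ (α * ε - β * γ) *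
    χ ((γ * (u * a ^ 2 + v * a) + ε)⁻¹) else 0 with hf
  set g : ZMod p → ℂ := fun a => if a ∈ S then χ ((γ * (u * a ^ 2 + v * a) + ε)⁻¹) else 0 with hg
  have e0 : A.filter (fun a => a ∈ S) = S := by
    ext a
    rw [Finset.mem_filter]
    exact ⟨fun h => h.2, fun h => ⟨hSA h, h⟩⟩
  have hmain : ∑ a ∈ S, ∑ b ∈ S, χ (φ a - φ b)
      = ∑ a ∈ A, ∑ b ∈ A, f a * g b * (χ (a - b) * χ (u * (a + b) + v)) := by
    have e1 : ∀ a, ∑ b ∈ A, f a * g b * (χ (a - b) * χ (u * (a + b) + v))
        = if a ∈ S then ∑ b ∈ S, χ (φ a - φ b) else 0 := by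
      intro a
      by_cases ha : a ∈ S
      · rw [if_pos ha, ← e0, Finset.sum_filter]
        refine Finset.sum_congr rfl fun b _ => ?_
        simp only [hf, hg, if_pos ha]
        by_cases hb : b ∈ S
        · rw [if_pos hb, if_pos hb, hsub a (hSA' ha) b (hSA' hb)]
          simp only [map_mul]
          ring
        · rw [if_neg hb, if_neg hb]
          ring
      · rw [if_neg ha]
        refine Finset.sum_eq_zero fun b _ => ?_
        simp only [hf, if_neg ha]
        ring
    rw [Finset.sum_congr rfl fun a _ => e1 a, ← Finset.sum_filter, e0]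
  have hfn : ∑ a ∈ A, ‖f a‖ ^ 2 ≤ C.card := by
    have e1 : ∀ a ∈ A, ‖f a‖ ^ 2 ≤ if a ∈ S then (1 : ℝ) else 0 := by
      intro a _
      simp only [hf]
      split_ifs
      · rw [norm_mul]
        refine pow_le_one₀ (by positivity) (mul_le_one₀ (DirichletCharacter.norm_le_one χ _)
          (norm_nonneg _) (DirichletCharacter.norm_le_one χ _))
      · simp
    refine (Finset.sum_le_sum e1).trans ?_
    rw [← Finset.sum_filter, e0, Finset.sum_const, nsmul_eq_mul, mul_one, hScard]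
  have hgn : ∑ a ∈ A, ‖g a‖ ^ 2 ≤ C.card := by
    have e1 : ∀ a ∈ A, ‖g a‖ ^ 2 ≤ if a ∈ S then (1 : ℝ) else 0 := by
      intro a _
      simp only [hg]
      split_ifs
      · exact pow_le_one₀ (by positivity) (DirichletCharacter.norm_le_one χ _)
      · simp
    refine (Finset.sum_le_sum e1).trans ?_
    rw [← Finset.sum_filter, e0, Finset.sum_const, nsmul_eq_mul, mul_one, hScard]
  rw [hsum, hmain]
  refine (hM (fun s => χ (u * s + v)) (fun x => DirichletCharacter.norm_le_one χ _) f g).trans ?_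
  refine mul_le_mul_of_nonneg_left ?_ hM0
  calc Real.sqrt (∑ a ∈ A, ‖f a‖ ^ 2) * Real.sqrt (∑ b ∈ A, ‖g b‖ ^ 2)
      ≤ Real.sqrt (C.card : ℝ) * Real.sqrt (C.card : ℝ) :=
        mul_le_mul (Real.sqrt_le_sqrt hfn) (Real.sqrt_le_sqrt hgn) (Real.sqrt_nonneg _)
          (Real.sqrt_nonneg _)
    _ = C.card := Real.mul_self_sqrt (Nat.cast_nonneg _)

end Pool.Agent.TH920.QI
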