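import Pool.Agent.TH920.QI.Dom
import Pool.Agent.W27.BG.Good

/-! Moments of `∑ w(d) χ(x+d) conj χ(x+d+2h)`. -/

set_option autoImplicit false

open Finset

namespace Pool.Agent.TH920.QI

open Pool.Agent.W27.BG Pool.Agent.H471R4.BW

/-- the arguments of `χ` -/
def Bi (k : ℕ) (h : ℤ) (D : Fin (k + k) → ℤ) (i : Fin (k + k)) : ℤ :=
  if (i : ℕ) < k then D i else D i + 2 * h

/-- the arguments of `conj χ` -/
def Ci (k : ℕ) (h : ℤ) (D : Fin (k + k) → ℤ) (i : Fin (k + k)) : ℤ :=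
  if (i : ℕ) < k then D i + 2 * h else D i

/-- the differences to be avoided -/
def E3 (h : ℤ) : Finset ℤ := {0, 2 * h, -(2 * h)}

theorem E3_card (h : ℤ) : (E3 h).card ≤ 3 := Finset.card_le_three

theorem E3_zero (h : ℤ) : (0 : ℤ) ∈ E3 h := by simp [E3]

theorem E3_neg (h : ℤ) : ∀ e ∈ E3 h, -e ∈ E3 h := by
  intro e he
  simp only [E3, Finset.mem_insert, Finset.mem_singleton] at he ⊢
  omega

variable {p : ℕ} [Fact p.Prime]

theorem cast_inj_small {a b : ℤ} (h : |a - b| < p) (hab : ((a : ℤ) : ZMod p) = ((b : ℤ) : ZMod p)) :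
    a = b := by
  have h1 : (p : ℤ) ∣ a - b := by
    rw [← ZMod.intCast_zmod_eq_zero_iff_dvd]
    push_cast
    rw [hab, sub_self]
  have := Int.eq_zero_of_abs_lt_dvd h1 h
  omega

/-- a tuple with an isolated entry gives a root which occurs exactly once -/
theorem uniq_of_isolated (k L : ℕ) (hL : 6 * L ≤ p) (h : ℤ) (hh : |h| < L) (h0 : h ≠ 0)
    (D : Fin (k + k) → ℤ) (hD : ∀ i, |D i| < L) (l : Fin (k + k))
    (hl : ∀ m, m ≠ l → D l - D m ∉ E3 h) :
    Uniq (fun i => (((Bi k h D i : ℤ) : ZMod p)).val) (fun i => (((Ci k h D i : ℤ) : ZMod p)).val) := by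
  classical
  set v : ℕ := (((D l : ℤ) : ZMod p)).val with hv
  have hinj : ∀ a b : ℤ, |a - b| < p → ((((a : ℤ) : ZMod p)).val = (((b : ℤ) : ZMod p)).val ↔ a = b) := by
    intro a b hab
    constructor
    · intro h1
      exact cast_inj_small hab (ZMod.val_injective p h1)
    · rintro rfl
      rfl
  have hL' : (6 * (L : ℤ)) ≤ p := by exact_mod_cast hL
  have hp0 : (0 : ℤ) < p := by exact_mod_cast (Fact.out : p.Prime).pos
  have hDb : ∀ i, -(L : ℤ) < D i ∧ D i < L := fun i => abs_lt.1 (hD i)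
  have hhb : -(L : ℤ) < h ∧ h < L := abs_lt.1 hh
  have e1 : ∀ m, ((((D m : ℤ) : ZMod p)).val = v ↔ m = l) := by
    intro m
    rw [hv, hinj _ _ (by rw [abs_lt]; have := hDb m; have := hDb l; constructor <;> omega)]
    constructor
    · intro h1
      by_contra hml
      apply hl m hml
      rw [h1, sub_self]
      exact E3_zero h
    · rintro rfl
      rfl
  have e2 : ∀ m, ¬ ((((D m + 2 * h : ℤ) : ZMod p)).val = v) := by
    intro m h1
    rw [hv, hinj _ _ (by rw [abs_lt]; have := hDb m; have := hDb l; constructor <;> omega)] at h1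
    by_cases hml : m = l
    · subst hml
      omega
    · apply hl m hml
      simp only [E3, Finset.mem_insert, Finset.mem_singleton]
      omega
  refine ⟨v, ?_⟩
  have e3 : (univ.filter fun i : Fin (k + k) => (((Bi k h D i : ℤ) : ZMod p)).val = v) =
      univ.filter fun i : Fin (k + k) => i = l ∧ (i : ℕ) < k := by
    refine Finset.filter_congr fun i _ => ?_
    unfold Bi
    split_ifs with hi
    · rw [e1]; simp [hi]
    · constructor
      · intro h1; exact absurd h1 (e2 i)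
      · intro h1; exact absurd h1.2 hi
  have e4 : (univ.filter fun i : Fin (k + k) => (((Ci k h D i : ℤ) : ZMod p)).val = v) =
      univ.filter fun i : Fin (k + k) => i = l ∧ ¬ (i : ℕ) < k := by
    refine Finset.filter_congr fun i _ => ?_
    unfold Ci
    split_ifs with hi
    · constructor
      · intro h1; exact absurd h1 (e2 i)
      · intro h1; exact absurd hi h1.2
    · rw [e1]; simp [hi]
  simp only
  rw [e3, e4]
  by_cases hlk : (l : ℕ) < k
  · have h1 : (univ.filter fun i : Fin (k + k) => i = l ∧ (i : ℕ) < k) = {l} := by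
      ext i
      simp only [Finset.mem_filter, mem_univ, true_and, Finset.mem_singleton]
      constructor
      · exact fun h => h.1
      · rintro rfl; exact ⟨rfl, hlk⟩
    have h2 : (univ.filter fun i : Fin (k + k) => i = l ∧ ¬ (i : ℕ) < k) = ∅ := by
      ext i
      simp only [Finset.mem_filter, mem_univ, true_and, Finset.notMem_empty, iff_false]
      rintro ⟨rfl, h⟩
      exact h hlk
    rw [h1, h2]
    simp
  · have h1 : (univ.filter fun i : Fin (k + k) => i = l ∧ ¬ (i : ℕ) < k) = {l} := by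
      ext i
      simp only [Finset.mem_filter, mem_univ, true_and, Finset.mem_singleton]
      constructor
      · exact fun h => h.1
      · rintro rfl; exact ⟨rfl, hlk⟩
    have h2 : (univ.filter fun i : Fin (k + k) => i = l ∧ (i : ℕ) < k) = ∅ := by
      ext i
      simp only [Finset.mem_filter, mem_univ, true_and, Finset.notMem_empty, iff_false]
      rintro ⟨rfl, h⟩
      exact hlk h
    rw [h1, h2]
    simp

/-- the symbol -/
noncomputable def pd (χ : DirichletCharacter ℂ p) (h : ℤ) (x : ZMod p) (d : ℤ) : ℂ :=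
  χ (x + (d : ZMod p)) * (starRingEnd ℂ) (χ (x + ((d + 2 * h : ℤ) : ZMod p)))

theorem pd_norm (χ : DirichletCharacter ℂ p) (h : ℤ) (x : ZMod p) (d : ℤ) : ‖pd χ h x d‖ ≤ 1 := by
  unfold pd
  rw [norm_mul, RCLike.norm_conj]
  exact mul_le_one₀ (DirichletCharacter.norm_le_one χ _) (norm_nonneg _)
    (DirichletCharacter.norm_le_one χ _)

/-- the product over a pair of tuples -/
theorem prod_pd (χ : DirichletCharacter ℂ p) (k : ℕ) (h : ℤ) (x : ZMod p) (b c : Fin k → ℤ) :
    (∏ i, pd χ h x (b i)) * (starRingEnd ℂ) (∏ i, pd χ h x (c i)) =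
      (∏ i, χ (x + ((Bi k h (Fin.append b c) i : ℤ) : ZMod p))) *
        ∏ i, (starRingEnd ℂ) (χ (x + ((Ci k h (Fin.append b c) i : ℤ) : ZMod p))) := by
  rw [Fin.prod_univ_add, Fin.prod_univ_add]
  have b1 : ∀ i : Fin k, Bi k h (Fin.append b c) (Fin.castAdd k i) = b i := by
    intro i
    unfold Bi
    rw [Fin.append_left, if_pos (by simp)]
  have b2 : ∀ i : Fin k, Bi k h (Fin.append b c) (Fin.natAdd k i) = c i + 2 * h := by
    intro i
    unfold Bi
    rw [Fin.append_right, if_neg (by simp)]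
  have c1 : ∀ i : Fin k, Ci k h (Fin.append b c) (Fin.castAdd k i) = b i + 2 * h := by
    intro i
    unfold Ci
    rw [Fin.append_left, if_pos (by simp)]
  have c2 : ∀ i : Fin k, Ci k h (Fin.append b c) (Fin.natAdd k i) = c i := by
    intro i
    unfold Ci
    rw [Fin.append_right, if_neg (by simp)]
  simp only [b1, b2, c1, c2]
  rw [map_prod]
  unfold pd
  simp only [map_mul, Complex.conj_conj, Finset.prod_mul_distrib]
  ring

/-- expansion of the moment as a sum over pairs of tuples -/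
theorem moment_expand (χ : DirichletCharacter ℂ p) (k : ℕ) (h : ℤ) (x : ZMod p) (V : Finset ℤ)
    (w : ℤ → ℂ) :
    ((‖∑ d ∈ V, w d * pd χ h x d‖ ^ (2 * k) : ℝ) : ℂ) =
      ∑ q ∈ (Fintype.piFinset (fun _ : Fin k => V)) ×ˢ (Fintype.piFinset (fun _ : Fin k => V)),
        ((∏ i, w (q.1 i)) * (starRingEnd ℂ) (∏ i, w (q.2 i))) *
          ((∏ i, pd χ h x (q.1 i)) * (starRingEnd ℂ) (∏ i, pd χ h x (q.2 i))) := by
  classical
  have h2 : ((‖∑ d ∈ V, w d * pd χ h x d‖ ^ (2 * k) : ℝ) : ℂ)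
      = (∑ d ∈ V, w d * pd χ h x d) ^ k * (starRingEnd ℂ) ((∑ d ∈ V, w d * pd χ h x d) ^ k) := by
    rw [Complex.mul_conj, Complex.normSq_eq_norm_sq, norm_pow]
    norm_cast
    ring
  rw [h2, Finset.sum_pow', map_sum, Finset.sum_mul_sum, ← Finset.sum_product']
  refine Finset.sum_congr rfl (fun q _ => ?_)
  simp only [Finset.prod_mul_distrib, map_mul]
  ring

/-- number of pairs of tuples without isolated entry -/
theorem close_pairs (k L : ℕ) (hL : 1 ≤ L) (h : ℤ) :
    ((((Fintype.piFinset (fun _ : Fin k => Finset.Ioo (-(L : ℤ)) L)) ×ˢ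
      (Fintype.piFinset (fun _ : Fin k => Finset.Ioo (-(L : ℤ)) L))).filter
        (fun q => ∀ l, ∃ m, m ≠ l ∧
          Fin.append q.1 q.2 l - Fin.append q.1 q.2 m ∈ E3 h)).card) ≤
      (12 * k) ^ (2 * k) * (2 * L) ^ k := by
  classical
  set V := Finset.Ioo (-(L : ℤ)) L with hV
  have hVc : V.card ≤ 2 * L := by rw [hV, Int.card_Ioo]; omega
  have hVn : V.Nonempty := ⟨0, by rw [hV, Finset.mem_Ioo]; constructor <;> omega⟩
  have h1 := count_close (k + k) V (E3 h) hVn (E3_zero h) (E3_neg h)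
  have h2 : ((((Fintype.piFinset (fun _ : Fin k => V)) ×ˢ
      (Fintype.piFinset (fun _ : Fin k => V))).filter
        (fun q => ∀ l, ∃ m, m ≠ l ∧
          Fin.append q.1 q.2 l - Fin.append q.1 q.2 m ∈ E3 h)).card) ≤
      (((Fintype.piFinset (fun _ : Fin (k + k) => V)).filter
      (fun D => ∀ l, ∃ m, m ≠ l ∧ D l - D m ∈ E3 h)).card) := by
    refine Finset.card_le_card_of_injOn (fun q => Fin.append q.1 q.2) ?_ ?_
    · intro q hq
      rw [Finset.mem_coe, Finset.mem_filter, Finset.mem_product, Fintype.mem_piFinset,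
        Fintype.mem_piFinset] at hq
      rw [Finset.mem_coe, Finset.mem_filter, Fintype.mem_piFinset]
      refine ⟨?_, hq.2⟩
      intro i
      show Fin.append q.1 q.2 i ∈ V
      refine Fin.addCases (fun j => ?_) (fun j => ?_) i
      · rw [Fin.append_left]; exact hq.1.1 j
      · rw [Fin.append_right]; exact hq.1.2 j
    · intro q _ q' _ hqq
      simp only at hqq
      refine Prod.ext ?_ ?_
      · funext j
        have := congrFun hqq (Fin.castAdd k j)
        rwa [Fin.append_left, Fin.append_left] at this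
      · funext j
        have := congrFun hqq (Fin.natAdd k j)
        rwa [Fin.append_right, Fin.append_right] at this
  refine h2.trans (h1.trans ?_)
  have e1 : (k + k) / 2 = k := by omega
  have e2 : k + k = 2 * k := by ring
  rw [e1, e2]
  refine Nat.mul_le_mul (Nat.pow_le_pow_left ?_ _) (Nat.pow_le_pow_left hVc _)
  have := E3_card h
  nlinarith

/-- the moment over the shifts, for one character -/
theorem mom3 (χ : DirichletCharacter ℂ p) (hχ : χ ≠ 1) (k L : ℕ) (hL1 : 1 ≤ L) (hL : 6 * L ≤ p)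
    (h : ℤ) (hh : |h| < L) (h0 : h ≠ 0) (w : ℤ → ℂ) (hw : ∀ d, ‖w d‖ ≤ 1) :
    ∑ x : ZMod p, ‖∑ d ∈ Finset.Ioo (-(L : ℤ)) L, w d * pd χ h x d‖ ^ (2 * k) ≤
      ((12 * k : ℕ) : ℝ) ^ (2 * k) * (2 * L : ℝ) ^ k * p
        + (4 * k) * (2 * L : ℝ) ^ (2 * k) * Real.sqrt p := by
  classical
  set V := Finset.Ioo (-(L : ℤ)) L with hV
  have hVc : V.card ≤ 2 * L := by rw [hV, Int.card_Ioo]; omega
  set Pi := Fintype.piFinset (fun _ : Fin k => V) with hPi
  have hPic : (Pi.card : ℝ) ≤ (2 * L : ℝ) ^ k := by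
    rw [hPi, Fintype.card_piFinset]
    simp only [Finset.prod_const, Finset.card_univ, Fintype.card_fin]
    push_cast
    have : (V.card : ℝ) ≤ 2 * L := by exact_mod_cast hVc
    gcongr
  set Φ : (Fin k → ℤ) × (Fin k → ℤ) → ℂ := fun q => ∑ x : ZMod p,
    (∏ i, pd χ h x (q.1 i)) * (starRingEnd ℂ) (∏ i, pd χ h x (q.2 i)) with hΦ
  have hW : ((∑ x : ZMod p, ‖∑ d ∈ V, w d * pd χ h x d‖ ^ (2 * k) : ℝ) : ℂ) =
      ∑ q ∈ Pi ×ˢ Pi, ((∏ i, w (q.1 i)) * (starRingEnd ℂ) (∏ i, w (q.2 i))) * Φ q := by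
    rw [Complex.ofReal_sum, Finset.sum_congr rfl fun x _ => moment_expand χ k h x V w,
      Finset.sum_comm]
    refine Finset.sum_congr rfl fun q _ => ?_
    rw [hΦ, Finset.mul_sum]
  have hnn : (0 : ℝ) ≤ ∑ x : ZMod p, ‖∑ d ∈ V, w d * pd χ h x d‖ ^ (2 * k) :=
    Finset.sum_nonneg (fun _ _ => by positivity)
  have hW1 : ∑ x : ZMod p, ‖∑ d ∈ V, w d * pd χ h x d‖ ^ (2 * k) =
      ‖∑ q ∈ Pi ×ˢ Pi, ((∏ i, w (q.1 i)) * (starRingEnd ℂ) (∏ i, w (q.2 i))) * Φ q‖ := by
    rw [← hW, Complex.norm_real, Real.norm_of_nonneg hnn]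
  rw [hW1]
  refine (norm_sum_le _ _).trans ?_
  have hterm : ∀ q ∈ Pi ×ˢ Pi, ‖((∏ i, w (q.1 i)) * (starRingEnd ℂ) (∏ i, w (q.2 i))) * Φ q‖
      ≤ ‖Φ q‖ := by
    intro q _
    have hcx : ∀ x : Fin k → ℤ, ‖∏ i, w (x i)‖ ≤ 1 := by
      intro x
      rw [norm_prod]
      exact Finset.prod_le_one (fun _ _ => norm_nonneg _) (fun i _ => hw _)
    rw [norm_mul, norm_mul, RCLike.norm_conj]
    exact mul_le_of_le_one_left (norm_nonneg _) (mul_le_one₀ (hcx _) (norm_nonneg _) (hcx _))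
  refine (Finset.sum_le_sum hterm).trans ?_
  rw [← Finset.sum_filter_add_sum_filter_not (Pi ×ˢ Pi)
    (fun q => ∀ l, ∃ m, m ≠ l ∧ Fin.append q.1 q.2 l - Fin.append q.1 q.2 m ∈ E3 h)]
  refine add_le_add ?_ ?_
  · have h1 : ∀ q ∈ (Pi ×ˢ Pi).filter (fun q => ∀ l, ∃ m, m ≠ l ∧
        Fin.append q.1 q.2 l - Fin.append q.1 q.2 m ∈ E3 h), ‖Φ q‖ ≤ (p : ℝ) := by
      intro q _
      refine (norm_sum_le _ _).trans ?_
      have h3 : ∀ y : Fin k → ℤ, ∀ x : ZMod p, ‖∏ i, pd χ h x (y i)‖ ≤ 1 := by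
        intro y x
        rw [norm_prod]
        exact Finset.prod_le_one (fun _ _ => norm_nonneg _) (fun i _ => pd_norm _ _ _ _)
      calc ∑ x : ZMod p, ‖(∏ i, pd χ h x (q.1 i)) * (starRingEnd ℂ) (∏ i, pd χ h x (q.2 i))‖
          ≤ ∑ _x : ZMod p, (1 : ℝ) := by
            refine Finset.sum_le_sum fun x _ => ?_
            rw [norm_mul, RCLike.norm_conj]
            exact mul_le_one₀ (h3 _ _) (norm_nonneg _) (h3 _ _)
        _ = p := by simp
    refine (Finset.sum_le_card_nsmul _ _ _ h1).trans ?_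
    rw [nsmul_eq_mul]
    have h2 : (((Pi ×ˢ Pi).filter (fun q => ∀ l, ∃ m, m ≠ l ∧
        Fin.append q.1 q.2 l - Fin.append q.1 q.2 m ∈ E3 h)).card : ℝ) ≤
        ((12 * k : ℕ) : ℝ) ^ (2 * k) * (2 * L : ℝ) ^ k := by
      exact_mod_cast close_pairs k L hL1 h
    exact mul_le_mul_of_nonneg_right h2 (Nat.cast_nonneg p)
  · have h1 : ∀ q ∈ (Pi ×ˢ Pi).filter (fun q => ¬ ∀ l, ∃ m, m ≠ l ∧
        Fin.append q.1 q.2 l - Fin.append q.1 q.2 m ∈ E3 h), ‖Φ q‖ ≤ (4 * k) * Real.sqrt p := by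
      intro q hq
      rw [Finset.mem_filter, Finset.mem_product, hPi, Fintype.mem_piFinset,
        Fintype.mem_piFinset] at hq
      obtain ⟨⟨hq1, hq2⟩, hq3⟩ := hq
      push Not at hq3
      obtain ⟨l, hl⟩ := hq3
      have hDb : ∀ i, |Fin.append q.1 q.2 i| < L := by
        intro i
        refine Fin.addCases (fun j => ?_) (fun j => ?_) i
        · rw [Fin.append_left, abs_lt]; exact Finset.mem_Ioo.1 (hq1 j)
        · rw [Fin.append_right, abs_lt]; exact Finset.mem_Ioo.1 (hq2 j)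
      have hU := uniq_of_isolated (p := p) k L hL h hh h0 (Fin.append q.1 q.2) hDb l hl
      have hC := complete_all p χ hχ (k + k)
        (fun i => (((Bi k h (Fin.append q.1 q.2) i : ℤ) : ZMod p)).val)
        (fun i => (((Ci k h (Fin.append q.1 q.2) i : ℤ) : ZMod p)).val)
        (fun i => ZMod.val_lt _) (fun i => ZMod.val_lt _) hU
      simp only [ZMod.natCast_zmod_val] at hC
      have e : Φ q = ∑ x : ZMod p,
          (∏ i, χ (x + ((Bi k h (Fin.append q.1 q.2) i : ℤ) : ZMod p))) *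
        ∏ i, (starRingEnd ℂ) (χ (x + ((Ci k h (Fin.append q.1 q.2) i : ℤ) : ZMod p))) := by
        rw [hΦ]
        exact Finset.sum_congr rfl fun x _ => prod_pd χ k h x q.1 q.2
      rw [e]
      refine hC.trans (le_of_eq ?_)
      push_cast
      ring
    refine (Finset.sum_le_card_nsmul _ _ _ h1).trans ?_
    rw [nsmul_eq_mul]
    have h2 : (((Pi ×ˢ Pi).filter (fun q => ¬ ∀ l, ∃ m, m ≠ l ∧
        Fin.append q.1 q.2 l - Fin.append q.1 q.2 m ∈ E3 h)).card : ℝ) ≤ (2 * L : ℝ) ^ (2 * k) := by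
      have h3 := Finset.card_filter_le (Pi ×ˢ Pi) (fun q => ¬ ∀ l, ∃ m, m ≠ l ∧
        Fin.append q.1 q.2 l - Fin.append q.1 q.2 m ∈ E3 h)
      rw [Finset.card_product] at h3
      have h4 : (((Pi ×ˢ Pi).filter (fun q => ¬ ∀ l, ∃ m, m ≠ l ∧
        Fin.append q.1 q.2 l - Fin.append q.1 q.2 m ∈ E3 h)).card : ℝ) ≤ (Pi.card : ℝ) * Pi.card := by
        exact_mod_cast h3
      refine h4.trans ?_
      rw [two_mul k, pow_add]
      exact mul_le_mul hPic hPic (by positivity) (by positivity)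
    calc _ ≤ (2 * L : ℝ) ^ (2 * k) * ((4 * k) * Real.sqrt p) :=
          mul_le_mul_of_nonneg_right h2 (by positivity)
      _ = _ := by ring

end Pool.Agent.TH920.QI
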