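import Pool.Agent.TH920.QI.Main
import Pool.Agent.TH920.QI.Bad
import Pool.Agent.W27.BG.Sets

/-! Bilinear forms with kernel `χ(a-b) η(a+b)` on sets that are nearly invariant under a set of small
doubling (after `Pool.Agent.W27.BG.Sets`). -/

set_option autoImplicit false

open Finset
open scoped Pointwise

namespace Pool.Agent.TH920.QI

open Pool.Agent.W27.SD Pool.Agent.W27.BG

/-- the bound for all sets `A` with `|A + B| ≤ p ^ τ |A|`, for a general kernel -/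
theorem invariantK (δ ε K : ℝ) (hδ : 0 < δ) (hε0 : 0 < ε) (hε16 : ε ≤ 1 / 16)
    (hδε : δ + 4 * ε ≤ 1 / 2) :
    ∃ κ : ℝ, 0 < κ ∧ κ ≤ ε / 32 ∧ ∀ k : ℕ, 1 ≤ k → ∃ τ : ℝ, 0 < τ ∧
      ∃ P : ℕ, ∀ (p : ℕ) [Fact p.Prime], P ≤ p →
      ∀ (Xb : Finset (ZMod p)) (Kr : ZMod p → ZMod p → ℂ) (L : ℕ) [NeZero (2 * L)],
      L = ⌊(p : ℝ) ^ κ⌋₊ → (Xb.card : ℝ) ≤ (p : ℝ) ^ (2 * δ) → (∀ a b, ‖Kr a b‖ ≤ 1) →
      KerP L Xb ((L : ℝ) ^ (1 - 1 / (2 * (k : ℝ)))) Kr →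
      ∀ B : Finset (ZMod p), (p : ℝ) ^ (δ + 4 * ε) < B.card →
        ((B + B).card : ℝ) ≤ K * B.card → ∀ A : Finset (ZMod p), A.Nonempty →
        ((A + B).card : ℝ) ≤ (p : ℝ) ^ τ * A.card →
        ∀ f g : ZMod p → ℂ, ‖∑ a ∈ A, ∑ b ∈ A, f a * g b * Kr a b‖
          ≤ (p : ℝ) ^ (-(3 * τ)) * A.card *
            (Real.sqrt (∑ a ∈ A, ‖f a‖ ^ 2) * Real.sqrt (∑ b ∈ A, ‖g b‖ ^ 2)) := by
  classical
  obtain ⟨κ, hκ0, hκε, hrest⟩ := masterK δ ε (max K 1) hδ hε0 hε16 hδε (le_max_right _ _)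
  refine ⟨κ, hκ0, hκε, ?_⟩
  intro k hk
  obtain ⟨η, hη, P, hP⟩ := hrest k hk
  refine ⟨η / 8, by positivity, P, ?_⟩
  intro p _ hp Xb Kr L _ hL hbad hK1 hK B hB hBK A hA hAB
  have hp1' : (1 : ℝ) < p := by exact_mod_cast (Fact.out : p.Prime).one_lt
  have hp1 : (1 : ℝ) ≤ p := hp1'.le
  have hp0 : (0 : ℝ) < p := by linarith
  have hB0 : (0 : ℝ) < B.card := lt_of_le_of_lt (by positivity) hB
  have hBne : B.Nonempty := by
    rw [← Finset.card_pos]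
    exact_mod_cast hB0
  have hA0 : (0 : ℝ) < A.card := by exact_mod_cast hA.card_pos
  have hA1 : (1 : ℝ) ≤ A.card := by exact_mod_cast hA.card_pos
  have hAp : (A.card : ℝ) ≤ p := by
    have h := Finset.card_le_univ A
    rw [ZMod.card] at h
    exact_mod_cast h
  -- covering
  obtain ⟨F, hFA, hFcard, hFcov⟩ := Finset.ruzsa_covering_add (A := A) (B := B)
    (K := (p : ℝ) ^ (η / 8) * A.card / B.card) hBne (by
      rw [div_mul_cancel₀ _ hB0.ne']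
      exact hAB)
  have hcov : ∀ a ∈ A, ∃ x ∈ F, ∃ b ∈ B, ∃ b' ∈ B, a = x + (b - b') := by
    intro a ha
    have h1 := hFcov ha
    rw [Finset.mem_add] at h1
    obtain ⟨x, hx, d, hd, e⟩ := h1
    rw [Finset.mem_sub] at hd
    obtain ⟨b, hb, b', hb', e'⟩ := hd
    exact ⟨x, hx, b, hb, b', hb', by rw [e', e]⟩
  have hFB : (F.card : ℝ) * B.card ≤ (p : ℝ) ^ (η / 8) * A.card := by
    rwa [le_div_iff₀ hB0] at hFcard
  have ham : ∀ f g : ZMod p → ℂ, ‖∑ a ∈ A, ∑ b ∈ A, f a * g b * Kr a b‖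
      ≤ ((p : ℝ) ^ (-(7 * η / 8)) * A.card)
        * ((∑ a ∈ A, ‖f a‖ ^ 2 + ∑ b ∈ A, ‖g b‖ ^ 2) / 2) := by
    intro f g
    refine (hP p hp Xb Kr L hL hbad hK1 hK B hB (hBK.trans (mul_le_mul_of_nonneg_right (le_max_left _ _)
      (Nat.cast_nonneg _))) F A hcov f g).trans (mul_le_mul_of_nonneg_right ?_ ?_)
    · calc (p : ℝ) ^ (-η) * (F.card * B.card) ≤ (p : ℝ) ^ (-η) * ((p : ℝ) ^ (η / 8) * A.card) :=
            mul_le_mul_of_nonneg_left hFB (by positivity)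
        _ = (p : ℝ) ^ (-(7 * η / 8)) * A.card := by
            rw [← mul_assoc, ← Real.rpow_add hp0]
            congr 2
            ring
    · have h1 : 0 ≤ ∑ a ∈ A, ‖f a‖ ^ 2 := Finset.sum_nonneg fun _ _ => by positivity
      have h2 : 0 ≤ ∑ b ∈ A, ‖g b‖ ^ 2 := Finset.sum_nonneg fun _ _ => by positivity
      positivity
  have hgm := amgm_form A (fun a b => Kr a b) ((p : ℝ) ^ (-(7 * η / 8)) * A.card)
    (by positivity) ham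
  intro f g
  refine (hgm f g).trans (mul_le_mul_of_nonneg_right ?_ (by positivity))
  refine mul_le_mul_of_nonneg_right ?_ hA0.le
  exact Real.rpow_le_rpow_of_exponent_le hp1 (by linarith)

/-- every nonprincipal character has few bad shifts -/
theorem weil_bad3 (κ ε : ℝ) (hκ : 0 < κ) (hκε : κ ≤ ε / 32) (hε' : ε ≤ 1 / 8) :
    ∃ k : ℕ, 1 ≤ k ∧ ∃ P : ℕ, ∀ (p : ℕ) [Fact p.Prime], P ≤ p →
      ∀ (χ : DirichletCharacter ℂ p) (L : ℕ) [NeZero (2 * L)], χ ≠ 1 → L = ⌊(p : ℝ) ^ κ⌋₊ →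
      ((Bad3 L χ ((L : ℝ) ^ (1 - 1 / (2 * (k : ℝ))))).card : ℝ) ≤ (p : ℝ) ^ (2 * (1 / 4 + ε)) ∧
      ∀ η : ZMod p → ℂ, (∀ x, ‖η x‖ ≤ 1) →
        KerP L (Bad3 L χ ((L : ℝ) ^ (1 - 1 / (2 * (k : ℝ)))))
          ((L : ℝ) ^ (1 - 1 / (2 * ((4 * k : ℕ) : ℝ)))) (fun a b => χ (a - b) * η (a + b)) := by
  obtain ⟨k, hk⟩ := exists_nat_ge (1 / κ)
  have hκk : 1 ≤ κ * k := by
    rw [div_le_iff₀ hκ] at hk
    linarith
  have hk1 : 1 ≤ k := by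
    rcases Nat.eq_zero_or_pos k with h | h
    · subst h
      simp at hκk
      linarith
    · exact h
  have hkR : (1 : ℝ) ≤ k := by exact_mod_cast hk1
  obtain ⟨C3, hC3⟩ : ∃ C3 : ℝ, C3 = 4 * (((12 * k : ℕ) : ℝ) ^ (2 * k) * 2 ^ k + 4 * k * 4 ^ k) :=
    ⟨_, rfl⟩
  have hC30 : 0 ≤ C3 := by rw [hC3]; positivity
  obtain ⟨P1, hP1⟩ := large_rpow κ 2 hκ
  obtain ⟨P2, hP2⟩ := large_rpow (1 / 2) (2 ^ k) (by norm_num)
  obtain ⟨P3, hP3⟩ := large_rpow ε C3 (by linarith)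
  obtain ⟨P4, hP4⟩ := large_rpow (1 / 2) 6 (by norm_num)
  obtain ⟨P5, hP5⟩ := large_rpow (κ / 2 * (1 / (4 * (k : ℝ)))) 4 (by positivity)
  refine ⟨k, hk1, P1 + P2 + P3 + P4 + P5 + 1, ?_⟩
  intro p _ hp χ L _ hχ hLdef
  have hP1' := hP1 p (by omega)
  have hP2' := hP2 p (by omega)
  have hP3' := hP3 p (by omega)
  have hP4' := hP4 p (by omega)
  have hP5' := hP5 p (by omega)
  have hp1n : 1 < p := (Fact.out : p.Prime).one_lt
  have hp1 : (1 : ℝ) ≤ p := by exact_mod_cast hp1n.le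
  have hp0 : (0 : ℝ) < p := by linarith
  have hLle : (L : ℝ) ≤ (p : ℝ) ^ κ := by rw [hLdef]; exact Nat.floor_le (by positivity)
  have hLlt : (p : ℝ) ^ κ < L + 1 := by rw [hLdef]; exact Nat.lt_floor_add_one _
  have hL1R : (1 : ℝ) < L := by linarith
  have hL1 : 1 ≤ L := by
    have : 1 < L := by exact_mod_cast hL1R
    omega
  have hL0 : (0 : ℝ) < L := by linarith
  have hLbig : (p : ℝ) ^ (κ / 2) ≤ L := by
    have e1 : (p : ℝ) ^ κ = (p : ℝ) ^ (κ / 2) * (p : ℝ) ^ (κ / 2) := by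
      rw [← Real.rpow_add hp0]; congr 1; ring
    have h1 : (1 : ℝ) ≤ (p : ℝ) ^ (κ / 2) := Real.one_le_rpow hp1 (by linarith)
    by_contra hcon
    rw [not_le] at hcon
    have h2 : (L : ℝ) + 1 ≤ 2 * L := by linarith
    have h3 : (p : ℝ) ^ (κ / 2) * (p : ℝ) ^ (κ / 2) < 2 * (p : ℝ) ^ (κ / 2) := by
      rw [← e1]; linarith
    have h4 : (p : ℝ) ^ (κ / 2) < 2 := lt_of_mul_lt_mul_right h3 (by positivity)
    have h5 : (2 : ℝ) ≤ (p : ℝ) ^ (κ / 2) := by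
      have h6 : (p : ℝ) ^ (κ / 2 * (1 / (4 * (k : ℝ)))) ≤ (p : ℝ) ^ (κ / 2) := by
        apply Real.rpow_le_rpow_of_exponent_le hp1
        have h7 : 1 / (4 * (k : ℝ)) ≤ 1 := by
          rw [div_le_one (by positivity)]
          linarith
        nlinarith
      linarith
    linarith
  have hL6 : 6 * L ≤ p := by
    have h1 : (p : ℝ) ^ (1 / 2 : ℝ) * (p : ℝ) ^ (1 / 2 : ℝ) = p := by
      rw [← Real.rpow_add hp0]; norm_num
    have h2 : (L : ℝ) ≤ (p : ℝ) ^ (1 / 2 : ℝ) :=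
      hLle.trans (Real.rpow_le_rpow_of_exponent_le hp1 (by linarith))
    have h3 : (6 : ℝ) * L ≤ p := by
      rw [← h1]
      exact mul_le_mul hP4'.le h2 hL0.le (by positivity)
    exact_mod_cast h3
  have hLk : Real.sqrt p ≤ (L : ℝ) ^ k := by
    have h1 : (p : ℝ) ≤ (2 * L : ℝ) ^ k := by
      calc (p : ℝ) = (p : ℝ) ^ (1 : ℝ) := (Real.rpow_one _).symm
        _ ≤ (p : ℝ) ^ (κ * k) := Real.rpow_le_rpow_of_exponent_le hp1 hκk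
        _ = ((p : ℝ) ^ κ) ^ k := by rw [Real.rpow_mul hp0.le, Real.rpow_natCast]
        _ ≤ (2 * L : ℝ) ^ k := pow_le_pow_left₀ (by positivity) (by linarith) k
    rw [mul_pow] at h1
    have h2 : (p : ℝ) = (p : ℝ) ^ (1 / 2 : ℝ) * (p : ℝ) ^ (1 / 2 : ℝ) := by
      rw [← Real.rpow_add hp0]; norm_num
    rw [Real.sqrt_eq_rpow]
    have h3 : (p : ℝ) ^ (1 / 2 : ℝ) * (p : ℝ) ^ (1 / 2 : ℝ) ≤ (p : ℝ) ^ (1 / 2 : ℝ) * (L : ℝ) ^ k := by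
      rw [← h2]
      exact h1.trans (mul_le_mul_of_nonneg_right hP2'.le (by positivity))
    exact le_of_mul_le_mul_left h3 (by positivity)
  refine ⟨?_, ?_⟩
  · refine (bad3_small L hL6 hL1 k hk1 hLk χ hχ).trans ?_
    rw [← hC3, Real.sqrt_eq_rpow]
    have h1 : (L : ℝ) ^ 3 ≤ (p : ℝ) ^ (3 * κ) := by
      calc (L : ℝ) ^ 3 ≤ ((p : ℝ) ^ κ) ^ 3 := pow_le_pow_left₀ hL0.le hLle _
        _ = (p : ℝ) ^ (3 * κ) := by
            rw [← Real.rpow_natCast, ← Real.rpow_mul hp0.le]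
            congr 1
            push_cast
            ring
    calc C3 * ((L : ℝ) ^ 3 * (p : ℝ) ^ (1 / 2 : ℝ))
        ≤ (p : ℝ) ^ ε * ((p : ℝ) ^ (3 * κ) * (p : ℝ) ^ (1 / 2 : ℝ)) :=
          mul_le_mul hP3'.le (mul_le_mul_of_nonneg_right h1 (by positivity)) (by positivity)
            (by positivity)
      _ = (p : ℝ) ^ (ε + (3 * κ + 1 / 2)) := by
          rw [Real.rpow_add hp0, Real.rpow_add hp0]
      _ ≤ (p : ℝ) ^ (2 * (1 / 4 + ε)) := Real.rpow_le_rpow_of_exponent_le hp1 (by linarith)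
  · intro η hη
    refine kerP_mono (kerP_of L χ _ (by positivity) η hη) (sqrt_size L k hL1 hk1 ?_)
    calc (4 : ℝ) ≤ (p : ℝ) ^ (κ / 2 * (1 / (4 * (k : ℝ)))) := hP5'.le
      _ = ((p : ℝ) ^ (κ / 2)) ^ (1 / (4 * (k : ℝ))) := by rw [Real.rpow_mul hp0.le]
      _ ≤ (L : ℝ) ^ (1 / (4 * (k : ℝ))) :=
          Real.rpow_le_rpow (by positivity) hLbig (by positivity)

/-- exponents above `1 / 4`: every character, kernel `χ(a-b) η(a+b)` -/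
theorem quarterK (δ K : ℝ) (hδ : 1 / 4 < δ) :
    ∃ τ : ℝ, 0 < τ ∧ ∃ P : ℕ, ∀ p : ℕ, p.Prime → P ≤ p →
      ∀ χ : DirichletCharacter ℂ p, χ ≠ 1 → ∀ A B : Finset (ZMod p), A.Nonempty →
        (p : ℝ) ^ δ < B.card → ((B + B).card : ℝ) ≤ K * B.card →
        ((A + B).card : ℝ) ≤ (p : ℝ) ^ τ * A.card →
        ∀ η : ZMod p → ℂ, (∀ x, ‖η x‖ ≤ 1) →
        ∀ f g : ZMod p → ℂ, ‖∑ a ∈ A, ∑ b ∈ A, f a * g b * (χ (a - b) * η (a + b))‖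
          ≤ (p : ℝ) ^ (-(3 * τ)) * A.card *
            (Real.sqrt (∑ a ∈ A, ‖f a‖ ^ 2) * Real.sqrt (∑ b ∈ A, ‖g b‖ ^ 2)) := by
  obtain ⟨ε, hεdef⟩ : ∃ ε : ℝ, ε = min ((δ - 1 / 4) / 5) (1 / 32) := ⟨_, rfl⟩
  have hε0 : 0 < ε := by
    rw [hεdef]
    exact lt_min (by linarith) (by norm_num)
  have hεδ : 1 / 4 + 5 * ε ≤ δ := by
    have := min_le_left ((δ - 1 / 4) / 5) (1 / 32 : ℝ)
    rw [← hεdef] at this
    linarith
  have hε32 : ε ≤ 1 / 32 := by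
    rw [hεdef]
    exact min_le_right _ _
  obtain ⟨κ, hκ0, hκε, hrest⟩ := invariantK (1 / 4 + ε) ε K (by linarith) hε0 (by linarith)
    (by linarith)
  obtain ⟨k, hk, P1, hP1⟩ := weil_bad3 κ ε hκ0 hκε (by linarith)
  obtain ⟨τ, hτ, P2, hP2⟩ := hrest (4 * k) (by omega)
  obtain ⟨P3, hP3⟩ := large_rpow κ 1 hκ0
  refine ⟨τ, hτ, P1 + P2 + P3, ?_⟩
  intro p hpp hp χ hχ A B hA hB hBK hAB η hη
  have : Fact p.Prime := ⟨hpp⟩
  have hp1 : (1 : ℝ) ≤ p := by exact_mod_cast hpp.one_lt.le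
  have hL1 : 1 ≤ ⌊(p : ℝ) ^ κ⌋₊ := Nat.le_floor (by
    have := hP3 p (by omega)
    push_cast
    exact this.le)
  have : NeZero (2 * ⌊(p : ℝ) ^ κ⌋₊) := ⟨by omega⟩
  obtain ⟨hb1, hb2⟩ := hP1 p (by omega) χ ⌊(p : ℝ) ^ κ⌋₊ hχ rfl
  refine hP2 p (by omega) _ _ ⌊(p : ℝ) ^ κ⌋₊ rfl hb1 ?_ (hb2 η hη) B ?_ hBK A hA hAB
  · intro a b
    rw [norm_mul]
    exact mul_le_one₀ (DirichletCharacter.norm_le_one χ _) (norm_nonneg _) (hη _)
  · refine lt_of_le_of_lt ?_ hB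
    exact Real.rpow_le_rpow_of_exponent_le hp1 (by linarith)

end Pool.Agent.TH920.QI
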